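import Mathlib

/-!
# Torus quotients of complete intersections, and classes of rational curves

A torus acts on the affine space with the weights `w i` in the lattice `Fin r → ℤ` of characters; `F j`
are homogeneous polynomials. The quotient `X` of the semistable common zeros of the `F j` for the
character `κ`; the classes of morphisms from the projective line to `X`.
-/

namespace Pool.Agent.H.MP_2786f0_ag.h70

open MvPolynomial

variable {k : Type*} [Field k] {N c r : ℕ}

/-- The point `x` of the affine space is semistable for the character `κ` of the torus which acts with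
the weights `w i` (Hilbert-Mumford criterion): `⟨γ, κ⟩ ≥ 0` for each one-parameter subgroup `γ`
with `⟨γ, w i⟩ ≥ 0` whenever `x i ≠ 0`. By Farkas' lemma this says that `κ` lies in the cone generated by
the `w i` with `x i ≠ 0`. -/
def Semistable (w : Fin N → Fin r → ℤ) (κ : Fin r → ℤ) (x : Fin N → k) : Prop :=
  ∀ γ : Fin r → ℤ, (∀ i, x i ≠ 0 → 0 ≤ γ ⬝ᵥ w i) → 0 ≤ γ ⬝ᵥ κ

/-- `x` is a semistable common zero of the `F j`: its orbit is a point of the quotient `X`. -/
def IsPoint (w : Fin N → Fin r → ℤ) (κ : Fin r → ℤ) (F : Fin c → MvPolynomial (Fin N) k)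
    (x : Fin N → k) : Prop :=
  (∀ j, eval x (F j) = 0) ∧ Semistable w κ x

/-- `β` is the class of a morphism from the projective line to `X`: there are binary forms `f i`, of
degree `⟨β, w i⟩` or zero, which satisfy the equations, all of whose values at points
`u ≠ 0` are semistable. -/
def IsCurveClass (w : Fin N → Fin r → ℤ) (κ : Fin r → ℤ) (F : Fin c → MvPolynomial (Fin N) k)
    (β : Fin r → ℤ) : Prop :=
  ∃ f : Fin N → MvPolynomial (Fin 2) k,
    (∀ i, f i ≠ 0 → ∃ n : ℕ, (n : ℤ) = β ⬝ᵥ w i ∧ (f i).IsHomogeneous n) ∧
    (∀ j, aeval f (F j) = 0) ∧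
    ∀ u : Fin 2 → k, u ≠ 0 → Semistable w κ (fun i => eval u (f i))

end Pool.Agent.H.MP_2786f0_ag.h70
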