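import Mathlib

/-!
# A linear programming lemma

`w i` (`i ∈ S`) integral vectors, `v i` numbers. If `κ` is positive on every functional `≠ 0` which is
nonnegative on the `w i`, and there is a functional positive on all `w i`, then the maximum of `κ` on
`{γ | γ (w i) ≤ v i}` exists, and at the maximum `κ` is nonnegative on each functional which is
nonnegative on the tight `w i`.
-/

namespace Pool.Agent.H.MP_2786f0_ag.h70

/-- The value of the functional `γ` at `v`. -/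
def pr {r : ℕ} (γ : Fin r → ℚ) (v : Fin r → ℤ) : ℚ := ∑ l, γ l * v l

theorem pr_add {r : ℕ} (γ γ' : Fin r → ℚ) (v : Fin r → ℤ) : pr (γ + γ') v = pr γ v + pr γ' v := by
  simp [pr, add_mul, Finset.sum_add_distrib]

theorem pr_smul {r : ℕ} (t : ℚ) (γ : Fin r → ℚ) (v : Fin r → ℤ) : pr (t • γ) v = t * pr γ v := by
  simp [pr, Finset.mul_sum, mul_assoc]

theorem pr_neg {r : ℕ} (γ : Fin r → ℚ) (v : Fin r → ℤ) : pr (-γ) v = - pr γ v := by
  simp [pr]

theorem pr_sub {r : ℕ} (γ γ' : Fin r → ℚ) (v : Fin r → ℤ) : pr (γ - γ') v = pr γ v - pr γ' v := by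
  simp [pr, sub_mul, Finset.sum_sub_distrib]

variable {ι : Type*} {r : ℕ}

/-- Feasible functionals. -/
def Feas (S : Finset ι) (w : ι → Fin r → ℤ) (v : ι → ℚ) (γ : Fin r → ℚ) : Prop :=
  ∀ i ∈ S, pr γ (w i) ≤ v i

open Classical in
/-- The tight indices. -/
noncomputable def tight (S : Finset ι) (w : ι → Fin r → ℤ) (v : ι → ℚ) (γ : Fin r → ℚ) : Finset ι :=
  S.filter fun i => pr γ (w i) = v i

/-- Vertices. -/
def Vert (S : Finset ι) (w : ι → Fin r → ℤ) (v : ι → ℚ) (γ : Fin r → ℚ) : Prop :=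
  Feas S w v γ ∧ ∀ γ' : Fin r → ℚ, (∀ i ∈ tight S w v γ, pr γ' (w i) = 0) → γ' = 0

theorem mem_tight {S : Finset ι} {w : ι → Fin r → ℤ} {v : ι → ℚ} {γ : Fin r → ℚ} {i : ι} :
    i ∈ tight S w v γ ↔ i ∈ S ∧ pr γ (w i) = v i := by
  classical
  rw [tight, Finset.mem_filter]

/-- Every feasible functional is dominated by a vertex. -/
theorem exists_vert (S : Finset ι) (w : ι → Fin r → ℤ) (v : ι → ℚ) (κ : Fin r → ℤ)
    (hb : ∀ γ : Fin r → ℚ, γ ≠ 0 → (∀ i ∈ S, 0 ≤ pr γ (w i)) → 0 < pr γ κ) (n : ℕ) :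
    ∀ γ : Fin r → ℚ, Feas S w v γ → S.card ≤ (tight S w v γ).card + n →
      ∃ γ', Vert S w v γ' ∧ pr γ κ ≤ pr γ' κ := by
  classical
  induction n with
  | zero =>
    intro γ hγ hc
    by_cases hV : Vert S w v γ
    · exact ⟨γ, hV, le_rfl⟩
    exfalso
    have h1 : tight S w v γ = S := by
      apply Finset.eq_of_subset_of_card_le
      · intro i hi
        exact (mem_tight.1 hi).1
      · omega
    have h2 : ∃ γ' : Fin r → ℚ, (∀ i ∈ tight S w v γ, pr γ' (w i) = 0) ∧ γ' ≠ 0 := by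
      by_contra hcon
      push Not at hcon
      exact hV ⟨hγ, hcon⟩
    obtain ⟨γ', h3, h4⟩ := h2
    rw [h1] at h3
    have h5 := hb γ' h4 (fun i hi => (h3 i hi).ge)
    have h6 := hb (-γ') (neg_ne_zero.2 h4) (fun i hi => by rw [pr_neg, h3 i hi, neg_zero])
    rw [pr_neg] at h6
    linarith
  | succ n ih =>
    intro γ hγ hc
    by_cases hV : Vert S w v γ
    · exact ⟨γ, hV, le_rfl⟩
    have h2 : ∃ γ' : Fin r → ℚ, (∀ i ∈ tight S w v γ, pr γ' (w i) = 0) ∧ γ' ≠ 0 := by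
      by_contra hcon
      push Not at hcon
      exact hV ⟨hγ, hcon⟩
    obtain ⟨γ', h3, h4, h5⟩ : ∃ γ' : Fin r → ℚ, (∀ i ∈ tight S w v γ, pr γ' (w i) = 0) ∧ γ' ≠ 0 ∧
        0 ≤ pr γ' κ := by
      obtain ⟨γ', h3, h4⟩ := h2
      rcases le_total 0 (pr γ' κ) with h | h
      · exact ⟨γ', h3, h4, h⟩
      · refine ⟨-γ', fun i hi => ?_, neg_ne_zero.2 h4, ?_⟩
        · rw [pr_neg, h3 i hi, neg_zero]
        · rw [pr_neg]
          linarith
    -- an index in the direction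
    have h6 : ∃ i ∈ S, 0 < pr γ' (w i) := by
      by_contra hcon
      push Not at hcon
      have h7 := hb (-γ') (neg_ne_zero.2 h4) (fun i hi => by
        rw [pr_neg]
        have := hcon i hi
        linarith)
      rw [pr_neg] at h7
      linarith
    obtain ⟨i₁, hi₁, hmin⟩ := Finset.exists_min_image (S.filter fun i => 0 < pr γ' (w i))
      (fun i => (v i - pr γ (w i)) / pr γ' (w i)) (by
        obtain ⟨i, h7, h8⟩ := h6
        exact ⟨i, Finset.mem_filter.2 ⟨h7, h8⟩⟩)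
    rw [Finset.mem_filter] at hi₁
    set t := (v i₁ - pr γ (w i₁)) / pr γ' (w i₁) with ht
    have ht0 : 0 ≤ t := div_nonneg (by have := hγ i₁ hi₁.1; linarith) hi₁.2.le
    have hfeas : Feas S w v (γ + t • γ') := by
      intro i hi
      rw [pr_add, pr_smul]
      rcases lt_or_ge 0 (pr γ' (w i)) with h | h
      · have h7 := hmin i (Finset.mem_filter.2 ⟨hi, h⟩)
        rw [le_div_iff₀ h] at h7
        linarith
      · have h7 : t * pr γ' (w i) ≤ 0 := mul_nonpos_of_nonneg_of_nonpos ht0 h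
        have h8 := hγ i hi
        linarith
    have hsub : insert i₁ (tight S w v γ) ⊆ tight S w v (γ + t • γ') := by
      intro i hi
      rw [Finset.mem_insert] at hi
      rcases hi with rfl | hi
      · rw [mem_tight, pr_add, pr_smul]
        refine ⟨hi₁.1, ?_⟩
        rw [ht, div_mul_cancel₀ _ hi₁.2.ne']
        ring
      · rw [mem_tight, pr_add, pr_smul, h3 i hi, mul_zero, add_zero]
        exact mem_tight.1 hi
    have hnot : i₁ ∉ tight S w v γ := by
      intro h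
      have := h3 i₁ h
      rw [this] at hi₁
      exact lt_irrefl _ hi₁.2
    have hcard : (tight S w v γ).card + 1 ≤ (tight S w v (γ + t • γ')).card := by
      rw [← Finset.card_insert_of_notMem hnot]
      exact Finset.card_le_card hsub
    obtain ⟨γ₁, h7, h8⟩ := ih (γ + t • γ') hfeas (by omega)
    refine ⟨γ₁, h7, ?_⟩
    rw [pr_add, pr_smul] at h8
    have := mul_nonneg ht0 h5
    linarith

/-- **The linear programming lemma.** -/
theorem lp (S : Finset ι) (w : ι → Fin r → ℤ) (v : ι → ℚ) (κ : Fin r → ℤ)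
    (l : Fin r → ℚ) (hl : ∀ i ∈ S, 0 < pr l (w i))
    (hb : ∀ γ : Fin r → ℚ, γ ≠ 0 → (∀ i ∈ S, 0 ≤ pr γ (w i)) → 0 < pr γ κ) :
    ∃ γ : Fin r → ℚ, (∀ i ∈ S, pr γ (w i) ≤ v i) ∧
      ∀ γ' : Fin r → ℚ, (∀ i ∈ S, pr γ (w i) = v i → 0 ≤ pr γ' (w i)) → 0 ≤ pr γ' κ := by
  classical
  -- a feasible functional
  obtain ⟨γ₀, hγ₀⟩ : ∃ γ, Feas S w v γ := by
    by_cases hS : S.Nonempty
    · obtain ⟨i₀, hi₀, hmin⟩ := Finset.exists_min_image S (fun i => v i / pr l (w i)) hS
      refine ⟨(v i₀ / pr l (w i₀)) • l, fun i hi => ?_⟩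
      rw [pr_smul]
      have h1 := hmin i hi
      rw [le_div_iff₀ (hl i hi)] at h1
      exact h1
    · rw [Finset.not_nonempty_iff_eq_empty] at hS
      exact ⟨0, fun i hi => by rw [hS] at hi; simp at hi⟩
  have hvert : ∀ γ, Feas S w v γ → ∃ γ', Vert S w v γ' ∧ pr γ κ ≤ pr γ' κ := fun γ hγ =>
    exists_vert S w v κ hb S.card γ hγ (Nat.le_add_left _ _)
  -- finitely many vertices
  have hfin : {γ | Vert S w v γ}.Finite := by
    refine Set.Finite.of_finite_image (f := fun γ => tight S w v γ) ?_ ?_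
    · refine (Finset.finite_toSet S.powerset).subset ?_
      rintro _ ⟨γ, _, rfl⟩
      rw [Finset.coe_powerset, Set.mem_preimage, Set.mem_powerset_iff]
      intro i hi
      exact (mem_tight.1 hi).1
    · intro γ hγ γ' hγ' h
      have h1 := hγ.2 (γ - γ') (fun i hi => by
        have h2 := (mem_tight.1 hi).2
        have h3 : i ∈ tight S w v γ' := by
          have h4 : tight S w v γ = tight S w v γ' := h
          rwa [h4] at hi
        have h5 := (mem_tight.1 h3).2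
        rw [pr_sub, h2, h5, sub_self])
      exact sub_eq_zero.1 h1
  obtain ⟨γ₁, hγ₁, _⟩ := hvert γ₀ hγ₀
  obtain ⟨γ, hγ, hmax⟩ := Set.exists_max_image {γ | Vert S w v γ} (fun γ => pr γ κ) hfin ⟨γ₁, hγ₁⟩
  refine ⟨γ, hγ.1, fun γ' hγ' => ?_⟩
  by_contra hneg
  push Not at hneg
  -- a small step
  obtain ⟨ε, hε0, hε⟩ : ∃ ε : ℚ, 0 < ε ∧ Feas S w v (γ - ε • γ') := by
    have h1 : ∀ i ∈ S, ∃ ε : ℚ, 0 < ε ∧ ∀ ε', 0 < ε' → ε' ≤ ε → pr γ (w i) - ε' * pr γ' (w i) ≤ v i := by
      intro i hi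
      by_cases h : pr γ (w i) = v i
      · refine ⟨1, one_pos, fun ε' h2 _ => ?_⟩
        have := mul_nonneg h2.le (hγ' i hi h)
        linarith
      · have h2 : 0 < v i - pr γ (w i) := by
          have := hγ.1 i hi
          have h3 := lt_of_le_of_ne this h
          linarith
        refine ⟨(v i - pr γ (w i)) / (|pr γ' (w i)| + 1), by positivity, fun ε' h3 h4 => ?_⟩
        have h5 : 0 < |pr γ' (w i)| + 1 := by positivity
        rw [le_div_iff₀ h5] at h4
        have h6 : -(ε' * pr γ' (w i)) ≤ ε' * (|pr γ' (w i)| + 1) := by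
          have h7 : - pr γ' (w i) ≤ |pr γ' (w i)| := neg_le_abs _
          nlinarith
        linarith
    have h2 : ∀ T : Finset ι, T ⊆ S → ∃ ε : ℚ, 0 < ε ∧ ∀ i ∈ T, ∀ ε', 0 < ε' → ε' ≤ ε →
        pr γ (w i) - ε' * pr γ' (w i) ≤ v i := by
      intro T
      induction T using Finset.induction_on with
      | empty => exact fun _ => ⟨1, one_pos, by simp⟩
      | insert i T hi ih =>
        intro hT
        obtain ⟨ε₁, h3, h4⟩ := ih (fun j hj => hT (Finset.mem_insert_of_mem hj))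
        obtain ⟨ε₂, h5, h6⟩ := h1 i (hT (Finset.mem_insert_self _ _))
        refine ⟨min ε₁ ε₂, lt_min h3 h5, fun j hj ε' h7 h8 => ?_⟩
        rw [Finset.mem_insert] at hj
        rcases hj with rfl | hj
        · exact h6 ε' h7 (h8.trans (min_le_right _ _))
        · exact h4 j hj ε' h7 (h8.trans (min_le_left _ _))
    obtain ⟨ε, h3, h4⟩ := h2 S (Finset.Subset.refl _)
    refine ⟨ε, h3, fun i hi => ?_⟩
    rw [pr_sub, pr_smul]
    exact h4 i hi ε h3 le_rfl
  obtain ⟨γ₂, hγ₂, h1⟩ := hvert _ hε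
  have h2 := hmax γ₂ hγ₂
  rw [pr_sub, pr_smul] at h1
  have h3 : ε * pr γ' κ < 0 := mul_neg_of_pos_of_neg hε0 hneg
  linarith

end Pool.Agent.H.MP_2786f0_ag.h70
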