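import Pool.Agent.H.MP_2786f0_ag.h70.Defs
import Pool.Agent.H.MP_2786f0_ag.h70.LP

/-!
# Leading terms of solutions
-/

namespace Pool.Agent.H.MP_2786f0_ag.h70

open Polynomial

variable {k : Type*} [Field k] {N c r : ℕ}

theorem weight_sum {R : Type*} [CommRing R] {w : Fin N → Fin r → ℤ} {δ : Fin r → ℤ}
    {F : MvPolynomial (Fin N) R} (hF : F.IsWeightedHomogeneous w δ) {m : Fin N →₀ ℕ}
    (hm : F.coeff m ≠ 0) : ∑ i, m i • w i = δ := by
  have h := hF hm
  rwa [Finsupp.weight_apply, Finsupp.sum_fintype _ _ (fun _ => by simp)] at h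

theorem pr_sum {w : Fin N → Fin r → ℤ} (m : Fin N → ℕ) (γ : Fin r → ℚ) :
    pr γ (∑ i, m i • w i) = ∑ i, m i * pr γ (w i) := by
  have h : ∀ l, (∑ i, m i • w i) l = ∑ i, (m i : ℤ) * w i l := by
    intro l
    rw [Finset.sum_apply]
    refine Finset.sum_congr rfl fun i _ => ?_
    rw [Pi.smul_apply, nsmul_eq_mul]
  simp only [pr, h, Finset.mul_sum]
  push_cast
  simp only [Finset.mul_sum]
  rw [Finset.sum_comm]
  refine Finset.sum_congr rfl fun i _ => Finset.sum_congr rfl fun l _ => ?_
  ring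

theorem dot_sum {w : Fin N → Fin r → ℤ} (m : Fin N → ℕ) (γ : Fin r → ℤ) :
    γ ⬝ᵥ (∑ i, m i • w i) = ∑ i, m i * (γ ⬝ᵥ w i) := by
  rw [dotProduct_sum]
  refine Finset.sum_congr rfl fun i _ => ?_
  rw [dotProduct_smul, nsmul_eq_mul]

/-- The terms of weight zero. -/
theorem eval_face {w : Fin N → Fin r → ℤ} {δ : Fin r → ℤ} {F : MvPolynomial (Fin N) k}
    (hF : F.IsWeightedHomogeneous w δ) (p : Fin N → k) (hp : MvPolynomial.eval p F = 0)
    (γ : Fin r → ℤ) (h : ∀ i, p i ≠ 0 → 0 ≤ γ ⬝ᵥ w i) :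
    MvPolynomial.eval (fun i => if γ ⬝ᵥ w i = 0 then p i else 0) F = 0 := by
  classical
  by_cases hex : ∃ m ∈ F.support, ∀ i, m i ≠ 0 → p i ≠ 0 ∧ γ ⬝ᵥ w i = 0
  · obtain ⟨m₀, hm₀, h₀⟩ := hex
    have hδ : γ ⬝ᵥ δ = 0 := by
      rw [← weight_sum hF (MvPolynomial.mem_support_iff.1 hm₀), dot_sum]
      refine Finset.sum_eq_zero fun i _ => ?_
      by_cases hi : m₀ i = 0
      · rw [hi]; simp
      · rw [(h₀ i hi).2, mul_zero]
    refine Eq.trans ?_ hp
    rw [MvPolynomial.eval_eq', MvPolynomial.eval_eq']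
    refine Finset.sum_congr rfl fun m hm => ?_
    congr 1
    by_cases hall : ∀ i, m i ≠ 0 → p i ≠ 0
    · have h1 : ∑ i, (m i : ℤ) * (γ ⬝ᵥ w i) = 0 := by
        rw [← dot_sum, weight_sum hF (MvPolynomial.mem_support_iff.1 hm), hδ]
      have h2 : ∀ i ∈ Finset.univ, 0 ≤ (m i : ℤ) * (γ ⬝ᵥ w i) := by
        intro i _
        by_cases hi : m i = 0
        · rw [hi]; simp
        · exact mul_nonneg (by positivity) (h i (hall i hi))
      have h3 := (Finset.sum_eq_zero_iff_of_nonneg h2).1 h1
      refine Finset.prod_congr rfl fun i _ => ?_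
      by_cases hi : m i = 0
      · rw [hi, pow_zero, pow_zero]
      · have h4 := h3 i (Finset.mem_univ _)
        rcases mul_eq_zero.1 h4 with h5 | h5
        · exact absurd (by exact_mod_cast h5) hi
        · rw [if_pos h5]
    · push Not at hall
      obtain ⟨i, hi, hpi⟩ := hall
      refine (Finset.prod_eq_zero (Finset.mem_univ i) ?_).trans
        (Finset.prod_eq_zero (Finset.mem_univ i) ?_).symm
      · rw [hpi, ite_self, zero_pow hi]
      · rw [hpi, zero_pow hi]
  · push Not at hex
    rw [MvPolynomial.eval_eq']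
    refine Finset.sum_eq_zero fun m hm => ?_
    obtain ⟨i, hi, h1⟩ := hex m hm
    rw [Finset.prod_eq_zero (Finset.mem_univ i), mul_zero]
    by_cases hpi : p i = 0
    · rw [hpi, ite_self, zero_pow hi]
    · rw [if_neg (h1 hpi), zero_pow hi]

/-- The point of leading terms. -/
noncomputable def lead (w : Fin N → Fin r → ℤ) (g : Fin N → k[X]) (γ : Fin r → ℚ) (i : Fin N) : k :=
  open Classical in
  if pr γ (w i) = ((g i).natTrailingDegree : ℚ) then (g i).trailingCoeff else 0

theorem lead_ne_zero {w : Fin N → Fin r → ℤ} {g : Fin N → k[X]} {γ : Fin r → ℚ} {i : Fin N} :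
    lead w g γ i ≠ 0 ↔ g i ≠ 0 ∧ pr γ (w i) = ((g i).natTrailingDegree : ℚ) := by
  rw [lead]
  split_ifs with h
  · simp [h]
  · simp [h]

/-- The leading terms of a solution form a solution. -/
theorem trail {w : Fin N → Fin r → ℤ} {δ : Fin r → ℤ} {F : MvPolynomial (Fin N) k}
    (hF : F.IsWeightedHomogeneous w δ) (g : Fin N → k[X]) (hg : MvPolynomial.aeval g F = 0)
    (γ : Fin r → ℚ) (hγ : ∀ i, g i ≠ 0 → pr γ (w i) ≤ ((g i).natTrailingDegree : ℚ)) :
    MvPolynomial.eval (lead w g γ) F = 0 := by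
  classical
  set v : Fin N → ℕ := fun i => (g i).natTrailingDegree with hv
  have hdvd : ∀ i, (X : k[X]) ^ v i ∣ g i := by
    intro i
    rw [X_pow_dvd_iff]
    intro n hn
    exact coeff_eq_zero_of_lt_natTrailingDegree hn
  choose h hh using hdvd
  have h0 : ∀ i, (h i).coeff 0 = (g i).trailingCoeff := by
    intro i
    have h1 := coeff_X_pow_mul (h i) (v i) 0
    rw [zero_add, ← hh i] at h1
    rw [← h1]
    rfl
  -- the terms
  have hterm : ∀ (m : Fin N →₀ ℕ) (n : ℕ), (∏ i, g i ^ m i).coeff n =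
      (X ^ (∑ i, m i * v i) * ∏ i, h i ^ m i : k[X]).coeff n := by
    intro m n
    congr 1
    rw [← Finset.prod_pow_eq_pow_sum, ← Finset.prod_mul_distrib]
    refine Finset.prod_congr rfl fun i _ => ?_
    conv_lhs => rw [hh i]
    rw [mul_pow, ← pow_mul, mul_comm (v i)]
  have hcoeff0 : ∀ m : Fin N →₀ ℕ, (∏ i, h i ^ m i).coeff 0 = ∏ i, (g i).trailingCoeff ^ m i := by
    intro m
    rw [coeff_zero_eq_eval_zero, eval_prod]
    refine Finset.prod_congr rfl fun i _ => ?_
    rw [eval_pow, ← coeff_zero_eq_eval_zero, h0]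
  by_cases hex : ∃ m ∈ F.support, ∀ i, m i ≠ 0 → lead w g γ i ≠ 0
  · obtain ⟨m₀, hm₀, h₀⟩ := hex
    set n := ∑ i, m₀ i * v i with hn
    have hδ : pr γ δ = n := by
      rw [← weight_sum hF (MvPolynomial.mem_support_iff.1 hm₀), pr_sum, hn]
      push_cast
      refine Finset.sum_congr rfl fun i _ => ?_
      by_cases hi : m₀ i = 0
      · rw [hi]; simp
      · rw [(lead_ne_zero.1 (h₀ i hi)).2]
    have h1 : (MvPolynomial.aeval g F).coeff n = MvPolynomial.eval (lead w g γ) F := by
      rw [MvPolynomial.aeval_def, MvPolynomial.eval₂_eq', MvPolynomial.eval_eq', finsetSum_coeff]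
      refine Finset.sum_congr rfl fun m hm => ?_
      rw [Polynomial.algebraMap_apply, coeff_C_mul, Algebra.algebraMap_self, RingHom.id_apply]
      congr 1
      by_cases hall : ∀ i, m i ≠ 0 → lead w g γ i ≠ 0
      · have h2 : ∑ i, m i * v i = n := by
          have h3 : ((∑ i, m i * v i : ℕ) : ℚ) = n := by
            rw [← hδ, ← weight_sum hF (MvPolynomial.mem_support_iff.1 hm), pr_sum]
            push_cast
            refine Finset.sum_congr rfl fun i _ => ?_
            by_cases hi : m i = 0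
            · rw [hi]; simp
            · rw [(lead_ne_zero.1 (hall i hi)).2]
          exact_mod_cast h3
        rw [hterm, h2]
        have h4 := coeff_X_pow_mul (∏ i, h i ^ m i) n 0
        rw [zero_add] at h4
        rw [h4, hcoeff0]
        refine Finset.prod_congr rfl fun i _ => ?_
        by_cases hi : m i = 0
        · rw [hi, pow_zero, pow_zero]
        · rw [lead, if_pos (lead_ne_zero.1 (hall i hi)).2]
      · push Not at hall
        obtain ⟨i₁, hi₁, hx⟩ := hall
        have hz0 : ∏ i, lead w g γ i ^ m i = 0 :=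
          Finset.prod_eq_zero (Finset.mem_univ i₁) (by rw [hx, zero_pow hi₁])
        rw [hz0]
        by_cases hz : ∃ i, m i ≠ 0 ∧ g i = 0
        · obtain ⟨i, hi, hgi⟩ := hz
          have hz1 : ∏ i, g i ^ m i = 0 :=
            Finset.prod_eq_zero (Finset.mem_univ i) (by rw [hgi, zero_pow hi])
          rw [hz1, coeff_zero]
        · push Not at hz
          have h2 : n < ∑ i, m i * v i := by
            have h3 : (n : ℚ) < ((∑ i, m i * v i : ℕ) : ℚ) := by
              rw [← hδ, ← weight_sum hF (MvPolynomial.mem_support_iff.1 hm), pr_sum]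
              push_cast
              refine Finset.sum_lt_sum (fun i _ => ?_) ⟨i₁, Finset.mem_univ _, ?_⟩
              · by_cases hi : m i = 0
                · rw [hi]; simp
                · exact mul_le_mul_of_nonneg_left (hγ i (hz i hi)) (by positivity)
              · have h4 : pr γ (w i₁) ≠ ((g i₁).natTrailingDegree : ℚ) := by
                  intro h5
                  exact (lead_ne_zero.2 ⟨hz i₁ hi₁, h5⟩) hx
                have h5 := lt_of_le_of_ne (hγ i₁ (hz i₁ hi₁)) h4
                have h6 : (0 : ℚ) < m i₁ := by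
                  have := Nat.pos_of_ne_zero hi₁
                  exact_mod_cast this
                exact mul_lt_mul_of_pos_left h5 h6
            exact_mod_cast h3
          rw [hterm, coeff_X_pow_mul', if_neg (by omega)]
    rw [← h1, hg, coeff_zero]
  · push Not at hex
    rw [MvPolynomial.eval_eq']
    refine Finset.sum_eq_zero fun m hm => ?_
    obtain ⟨i, hi, h1⟩ := hex m hm
    rw [Finset.prod_eq_zero (Finset.mem_univ i) (by rw [h1, zero_pow hi]), mul_zero]

end Pool.Agent.H.MP_2786f0_ag.h70
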