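import Pool.Agent.H.MP_2786f0_ag.C.Basic
import Pool.Agent.H.MP_2786f0_ag.h70.Trail

/-!
# Existence of solutions
-/

namespace Pool.Agent.H.MP_2786f0_ag.h70

open Polynomial

variable {k : Type*} [Field k] {N c r : ℕ}

theorem spec_natDegree' (a : Fin N → ℕ) (p : Fin N → k)
    (x : (Σ i : Fin N, Fin (a i)) → k) (i : Fin N) : (spec a p x i).natDegree ≤ a i := by
  rw [spec]
  refine natDegree_add_le_of_degree_le (natDegree_C_mul_X_pow_le _ _) ?_
  refine natDegree_sum_le_of_forall_le _ _ fun m _ => ?_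
  exact (natDegree_C_mul_X_pow_le _ _).trans m.2.le

theorem spec_coeff_top' (a : Fin N → ℕ) (p : Fin N → k)
    (x : (Σ i : Fin N, Fin (a i)) → k) (i : Fin N) : (spec a p x i).coeff (a i) = p i := by
  rw [spec, coeff_add, coeff_C_mul_X_pow, if_pos rfl, finsetSum_coeff, Finset.sum_eq_zero, add_zero]
  intro m _
  rw [coeff_C_mul_X_pow, if_neg m.2.ne']

/-- Solutions `φ i` of degree at most `a i` with leading coefficients `p i`, different from
`p i X ^ (a i)`, with `φ i₀ (0) = 0`, if the equations below the top follow from sufficiently few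
of them. -/
theorem exists_sol [IsAlgClosed k] (a : Fin N → ℕ) (d : Fin c → ℕ)
    (F : Fin c → MvPolynomial (Fin N) k) (hF : ∀ j, (F j).IsWeightedHomogeneous a (d j))
    (p : Fin N → k) (hpF : ∀ j, MvPolynomial.eval p (F j) = 0) (i₀ : Fin N) (hi₀ : 1 ≤ a i₀)
    (Q : Finset (Σ j : Fin c, Fin (d j))) (hQ : Q.card + 2 ≤ ∑ i, a i)
    (hQ' : ∀ φ : Fin N → k[X], (∀ i, (φ i).natDegree ≤ a i) → (∀ i, (φ i).coeff (a i) = p i) →
      (∀ l ∈ Q, (MvPolynomial.aeval φ (F l.1)).coeff (l.2 : ℕ) = 0) →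
      ∀ l : (Σ j : Fin c, Fin (d j)), (MvPolynomial.aeval φ (F l.1)).coeff (l.2 : ℕ) = 0) :
    ∃ φ : Fin N → k[X], (∀ i, (φ i).natDegree ≤ a i) ∧ (∀ i, (φ i).coeff (a i) = p i) ∧
      (∀ j, MvPolynomial.aeval φ (F j) = 0) ∧ (φ i₀).coeff 0 = 0 ∧
      ∃ i, φ i ≠ C (p i) * X ^ a i := by
  classical
  set E : ({l // l ∈ Q} ⊕ Unit) → MvPolynomial (Σ i : Fin N, Fin (a i)) k :=
    Sum.elim (fun l => (MvPolynomial.aeval (gen a p) (F l.1.1)).coeff (l.1.2 : ℕ))
      (fun _ => MvPolynomial.X ⟨i₀, ⟨0, hi₀⟩⟩) with hEdef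
  have hval : ∀ (x : (Σ i : Fin N, Fin (a i)) → k) (j : Fin c) (m : ℕ),
      MvPolynomial.eval x ((MvPolynomial.aeval (gen a p) (F j)).coeff m) =
        (MvPolynomial.aeval (spec a p x) (F j)).coeff m := by
    intro x j m
    have h1 : mapAlgHom (MvPolynomial.aeval x) (MvPolynomial.aeval (gen a p) (F j)) =
        MvPolynomial.aeval (spec a p x) (F j) := by
      rw [← AlgHom.comp_apply, MvPolynomial.comp_aeval]
      congr 2
      funext i
      exact map_gen a p x i
    rw [← h1, coe_mapAlgHom, coeff_map]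
    rfl
  have hE0 : ∀ l, MvPolynomial.eval (fun _ => 0) (E l) = 0 := by
    rintro (⟨⟨j, m⟩, _⟩ | _)
    · show MvPolynomial.eval (fun _ => 0) ((MvPolynomial.aeval (gen a p) (F j)).coeff (m : ℕ)) = 0
      rw [hval, aeval_spec_zero a (d j) (F j) (hF j) p (hpF j), coeff_zero]
    · show MvPolynomial.eval (fun _ => 0) (MvPolynomial.X _) = 0
      rw [MvPolynomial.eval_X]
  obtain ⟨x, hx0, hx⟩ := exists_zero (k := k) (by
    rw [Fintype.card_sum, Fintype.card_sigma, Fintype.card_coe]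
    simp only [Fintype.card_fin, Fintype.card_unit]
    omega) E hE0
  have hall := hQ' (spec a p x) (spec_natDegree' a p x) (spec_coeff_top' a p x) (by
    intro l hl
    rw [← hval]
    exact hx (Sum.inl ⟨l, hl⟩))
  refine ⟨spec a p x, spec_natDegree' a p x, spec_coeff_top' a p x, ?_, ?_, ?_⟩
  · intro j
    have h1 := aeval_degree' a (d j) (F j) (hF j) (spec a p x) (spec_natDegree' a p x)
    ext m
    rw [coeff_zero]
    rcases lt_trichotomy m (d j) with h | h | h
    · exact hall ⟨j, ⟨m, h⟩⟩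
    · rw [h, h1.2]
      simp only [spec_coeff_top' a p x]
      exact hpF j
    · exact coeff_eq_zero_of_natDegree_lt (h1.1.trans_lt h)
  · have h2 := spec_coeff a p x i₀ ⟨0, hi₀⟩
    have h3 := hx (Sum.inr ())
    rw [hEdef, Sum.elim_inr, MvPolynomial.eval_X] at h3
    rw [h3] at h2
    exact h2
  · by_contra hcon
    push Not at hcon
    apply hx0
    funext l
    obtain ⟨i, m⟩ := l
    have hm := m.2
    rw [← spec_coeff a p x i m, hcon i, coeff_C_mul_X_pow, if_neg (by omega)]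
    rfl

/-- The part of `F` with only the variables of nonnegative weight. -/
noncomputable def red (b : Fin N → ℤ) (F : MvPolynomial (Fin N) k) : MvPolynomial (Fin N) k :=
  open Classical in
  ∑ m ∈ F.support.filter (fun m => ∀ i, m i ≠ 0 → 0 ≤ b i), MvPolynomial.monomial m (F.coeff m)

theorem aeval_red {A : Type*} [CommRing A] [Algebra k A] (b : Fin N → ℤ)
    (F : MvPolynomial (Fin N) k) (g : Fin N → A) (hg : ∀ i, b i < 0 → g i = 0) :
    MvPolynomial.aeval g (red b F) = MvPolynomial.aeval g F := by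
  classical
  rw [red, map_sum, Finset.sum_filter]
  conv_rhs => rw [F.as_sum, map_sum]
  refine Finset.sum_congr rfl fun m _ => ?_
  split_ifs with h
  · rfl
  · push Not at h
    obtain ⟨i, hi, hb⟩ := h
    rw [MvPolynomial.aeval_monomial, Finsupp.prod_fintype _ _ (fun _ => pow_zero _),
      Finset.prod_eq_zero (Finset.mem_univ i), mul_zero]
    rw [hg i hb, zero_pow hi]

theorem eval_red (b : Fin N → ℤ) (F : MvPolynomial (Fin N) k) (g : Fin N → k)
    (hg : ∀ i, b i < 0 → g i = 0) :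
    MvPolynomial.eval g (red b F) = MvPolynomial.eval g F := by
  have h := aeval_red (A := k) b F g hg
  simpa [MvPolynomial.aeval_eq_eval] using h

theorem red_homogeneous {w : Fin N → Fin r → ℤ} {δ : Fin r → ℤ} {F : MvPolynomial (Fin N) k}
    (hF : F.IsWeightedHomogeneous w δ) (β : Fin r → ℤ) :
    (red (fun i => β ⬝ᵥ w i) F).IsWeightedHomogeneous (fun i => (β ⬝ᵥ w i).toNat)
      (β ⬝ᵥ δ).toNat := by
  classical
  refine MvPolynomial.IsWeightedHomogeneous.sum _ _ _ fun m hm => ?_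
  rw [Finset.mem_filter] at hm
  apply MvPolynomial.isWeightedHomogeneous_monomial
  rw [Finsupp.weight_apply, Finsupp.sum_fintype _ _ (fun _ => by simp)]
  have h1 : ((∑ i, m i • (β ⬝ᵥ w i).toNat : ℕ) : ℤ) = β ⬝ᵥ δ := by
    rw [← weight_sum hF (MvPolynomial.mem_support_iff.1 hm.1), dot_sum]
    rw [Nat.cast_sum]
    refine Finset.sum_congr rfl fun i _ => ?_
    by_cases hi : m i = 0
    · rw [hi]; simp
    · have h2 : (((β ⬝ᵥ w i).toNat : ℕ) : ℤ) = β ⬝ᵥ w i := Int.toNat_of_nonneg (hm.2 i hi)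
      rw [smul_eq_mul, Nat.cast_mul, h2]
  omega

end Pool.Agent.H.MP_2786f0_ag.h70
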