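import Pool.Agent.H.MP_2786f0_ag.C.Reduce
import Pool.Agent.H.MP_2786f0_ag.h70.Exist

/-!
# The equations of first order
-/

namespace Pool.Agent.H.MP_2786f0_ag.h70

open Polynomial

variable {k : Type*} [Field k] {N c r : ℕ}

/-- The coefficient of degree one of the value at polynomials. -/
theorem coeff_one_aeval (F : MvPolynomial (Fin N) k) (ψ : Fin N → k[X]) :
    (MvPolynomial.aeval ψ F).coeff 0 = MvPolynomial.eval (fun i => (ψ i).coeff 0) F ∧
      (MvPolynomial.aeval ψ F).coeff 1 =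
        ∑ i, MvPolynomial.eval (fun i => (ψ i).coeff 0) (MvPolynomial.pderiv i F) *
          (ψ i).coeff 1 := by
  induction F using MvPolynomial.induction_on with
  | C s =>
    constructor
    · rw [MvPolynomial.aeval_C, Polynomial.algebraMap_apply, Algebra.algebraMap_self,
        RingHom.id_apply, coeff_C_zero, MvPolynomial.eval_C]
    · rw [MvPolynomial.aeval_C, Polynomial.algebraMap_apply, Algebra.algebraMap_self,
        RingHom.id_apply, coeff_C_succ]
      symm
      refine Finset.sum_eq_zero fun i _ => ?_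
      rw [MvPolynomial.pderiv_C, map_zero, zero_mul]
  | add P Q hP hQ =>
    constructor
    · rw [map_add, coeff_add, hP.1, hQ.1, map_add]
    · rw [map_add, coeff_add, hP.2, hQ.2, ← Finset.sum_add_distrib]
      refine Finset.sum_congr rfl fun i _ => ?_
      rw [map_add, map_add, add_mul]
  | mul_X P l hP =>
    have h0 : (MvPolynomial.aeval ψ (P * MvPolynomial.X l)).coeff 0 =
        (MvPolynomial.aeval ψ P).coeff 0 * (ψ l).coeff 0 := by
      rw [map_mul, MvPolynomial.aeval_X, mul_coeff_zero]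
    have h1 : (MvPolynomial.aeval ψ (P * MvPolynomial.X l)).coeff 1 =
        (MvPolynomial.aeval ψ P).coeff 0 * (ψ l).coeff 1 +
          (MvPolynomial.aeval ψ P).coeff 1 * (ψ l).coeff 0 := by
      rw [map_mul, MvPolynomial.aeval_X, mul_coeff_one]
    constructor
    · rw [h0, hP.1, map_mul, MvPolynomial.eval_X]
    · rw [h1, hP.1, hP.2]
      have h2 : ∀ i, MvPolynomial.eval (fun i => (ψ i).coeff 0)
          (MvPolynomial.pderiv i (P * MvPolynomial.X l)) * (ψ i).coeff 1 =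
          MvPolynomial.eval (fun i => (ψ i).coeff 0) P * (if i = l then (ψ i).coeff 1 else 0) +
          (MvPolynomial.eval (fun i => (ψ i).coeff 0) (MvPolynomial.pderiv i P) *
            (ψ i).coeff 1) * (ψ l).coeff 0 := by
        intro i
        rw [Derivation.leibniz, smul_eq_mul, smul_eq_mul, MvPolynomial.pderiv_X, map_add, map_mul,
          map_mul, MvPolynomial.eval_X, Pi.single_apply]
        by_cases h : l = i
        · rw [if_pos h, if_pos h.symm, map_one]
          ring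
        · rw [if_neg h, if_neg (fun h' => h h'.symm), map_zero]
          ring
      rw [Finset.sum_congr rfl fun i _ => h2 i, Finset.sum_add_distrib, ← Finset.mul_sum,
        ← Finset.sum_mul, Finset.sum_ite_eq' Finset.univ l, if_pos (Finset.mem_univ _)]

/-- The first equation below the top. -/
theorem coeff_pred_aeval (a : Fin N → ℕ) (d : ℕ) (hd : 1 ≤ d) (F : MvPolynomial (Fin N) k)
    (hF : F.IsWeightedHomogeneous a d) (φ : Fin N → k[X]) (hφ : ∀ i, (φ i).natDegree ≤ a i) :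
    (MvPolynomial.aeval φ F).coeff (d - 1) =
      ∑ i, MvPolynomial.eval (fun i => (φ i).coeff (a i)) (MvPolynomial.pderiv i F) *
        (if 1 ≤ a i then (φ i).coeff (a i - 1) else 0) := by
  have h1 := (coeff_one_aeval F (fun i => (φ i).reflect (a i))).2
  rw [aeval_reflect a d F hF φ hφ, coeff_reflect, revAt_le hd] at h1
  rw [h1]
  refine Finset.sum_congr rfl fun i _ => ?_
  congr 1
  · congr 2
    funext i
    rw [coeff_reflect, revAt_le (Nat.zero_le _), Nat.sub_zero]
  · rw [coeff_reflect]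
    split_ifs with h
    · rw [revAt_le h]
    · have h2 : a i = 0 := by omega
      rw [revAt_eq_self_of_lt (by omega)]
      exact coeff_eq_zero_of_natDegree_lt (by have := hφ i; omega)

theorem red_self (b : Fin N → ℤ) (hb : ∀ i, 0 ≤ b i) (F : MvPolynomial (Fin N) k) :
    red b F = F := by
  classical
  rw [red, Finset.filter_true_of_mem (fun m _ i _ => hb i)]
  exact F.as_sum.symm

/-- Existence of solutions when all equations count. -/
theorem exists_sol_full [IsAlgClosed k] {w : Fin N → Fin r → ℤ} {δ : Fin c → Fin r → ℤ}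
    {F : Fin c → MvPolynomial (Fin N) k} (hF : ∀ j, (F j).IsWeightedHomogeneous w (δ j))
    {p : Fin N → k} (hp : ∀ j, MvPolynomial.eval p (F j) = 0) (β : Fin r → ℤ)
    (hβ : ∀ i, p i ≠ 0 → 0 ≤ β ⬝ᵥ w i) (i₀ : Fin N) (hi₀ : 0 < β ⬝ᵥ w i₀)
    (hcount : ∑ j, (β ⬝ᵥ δ j).toNat + 2 ≤ ∑ i, (β ⬝ᵥ w i).toNat) :
    ∃ φ : Fin N → k[X], (∀ i, (φ i).natDegree ≤ (β ⬝ᵥ w i).toNat) ∧
      (∀ i, (φ i).coeff (β ⬝ᵥ w i).toNat = p i) ∧
      (∀ j, MvPolynomial.aeval φ (F j) = 0) ∧ (φ i₀).coeff 0 = 0 ∧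
      ∃ i, φ i ≠ C (p i) * X ^ (β ⬝ᵥ w i).toNat := by
  classical
  have hp0 : ∀ i, β ⬝ᵥ w i < 0 → p i = 0 := by
    intro i hi
    by_contra h
    have := hβ i h
    omega
  obtain ⟨φ, h1, h2, h3, h4, h5⟩ := exists_sol (fun i => (β ⬝ᵥ w i).toNat)
    (fun j => (β ⬝ᵥ δ j).toNat) (fun j => red (fun i => β ⬝ᵥ w i) (F j))
    (fun j => red_homogeneous (hF j) β) p (fun j => by rw [eval_red _ _ _ hp0]; exact hp j) i₀
    (by omega) Finset.univ (by
      rw [Finset.card_univ, Fintype.card_sigma]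
      simp only [Fintype.card_fin]
      exact hcount) (fun φ _ _ h l => h l (Finset.mem_univ _))
  refine ⟨φ, h1, h2, fun j => ?_, h4, h5⟩
  rw [← aeval_red (fun i => β ⬝ᵥ w i) (F j) φ]
  · exact h3 j
  · intro i hi
    have h6 : (β ⬝ᵥ w i).toNat = 0 := by omega
    have h7 := h1 i
    have h8 := h2 i
    beta_reduce at h7 h8
    rw [h6] at h7 h8
    rw [eq_C_of_natDegree_le_zero h7, h8, hp0 i hi, C_0]

/-- Existence of solutions at a point where the equations of first order are dependent. -/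
theorem exists_sol_dep [IsAlgClosed k] {w : Fin N → Fin r → ℤ} {δ : Fin c → Fin r → ℤ}
    {F : Fin c → MvPolynomial (Fin N) k} (hF : ∀ j, (F j).IsWeightedHomogeneous w (δ j))
    {p : Fin N → k} (hp : ∀ j, MvPolynomial.eval p (F j) = 0) (β : Fin r → ℤ)
    (hβ : ∀ i, 0 ≤ β ⬝ᵥ w i) (i₀ : Fin N) (hi₀ : 0 < β ⬝ᵥ w i₀)
    (hcount : ∑ j, (β ⬝ᵥ δ j).toNat + 1 ≤ ∑ i, (β ⬝ᵥ w i).toNat)
    (hdep : ¬ LinearIndependent k fun (j : {j : Fin c // 0 < β ⬝ᵥ δ j})
      (i : {i : Fin N // 0 < β ⬝ᵥ w i}) => MvPolynomial.eval p (MvPolynomial.pderiv i.1 (F j.1))) :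
    ∃ φ : Fin N → k[X], (∀ i, (φ i).natDegree ≤ (β ⬝ᵥ w i).toNat) ∧
      (∀ i, (φ i).coeff (β ⬝ᵥ w i).toNat = p i) ∧
      (∀ j, MvPolynomial.aeval φ (F j) = 0) ∧ (φ i₀).coeff 0 = 0 ∧
      ∃ i, φ i ≠ C (p i) * X ^ (β ⬝ᵥ w i).toNat := by
  classical
  have hF' : ∀ j, (F j).IsWeightedHomogeneous (fun i => (β ⬝ᵥ w i).toNat) (β ⬝ᵥ δ j).toNat := by
    intro j
    have := red_homogeneous (hF j) β
    rwa [red_self _ hβ] at this
  rw [Fintype.linearIndependent_iff] at hdep
  push Not at hdep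
  obtain ⟨lam, hlam, j₀, hj₀⟩ := hdep
  have hd₀ : 0 < (β ⬝ᵥ δ j₀.1).toNat := by have := j₀.2; omega
  set l₀ : Σ j : Fin c, Fin (β ⬝ᵥ δ j).toNat := ⟨j₀.1, ⟨(β ⬝ᵥ δ j₀.1).toNat - 1, by omega⟩⟩ with hl₀
  refine exists_sol (fun i => (β ⬝ᵥ w i).toNat) (fun j => (β ⬝ᵥ δ j).toNat) F hF' p hp i₀
    (by omega) (Finset.univ.erase l₀) ?_ ?_
  · rw [Finset.card_erase_of_mem (Finset.mem_univ _), Finset.card_univ, Fintype.card_sigma]
    simp only [Fintype.card_fin]
    have h1 : (β ⬝ᵥ δ j₀.1).toNat ≤ ∑ j, (β ⬝ᵥ δ j).toNat :=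
      Finset.single_le_sum (f := fun j => (β ⬝ᵥ δ j).toNat) (fun _ _ => Nat.zero_le _)
        (Finset.mem_univ _)
    omega
  · intro φ h1 h2 h3 l
    by_cases hl : l = l₀
    · subst hl
      -- the relation
      have h4 : ∑ j : {j : Fin c // 0 < β ⬝ᵥ δ j}, lam j *
          (MvPolynomial.aeval φ (F j.1)).coeff ((β ⬝ᵥ δ j.1).toNat - 1) = 0 := by
        have h5 : ∀ j : {j : Fin c // 0 < β ⬝ᵥ δ j}, lam j *
            (MvPolynomial.aeval φ (F j.1)).coeff ((β ⬝ᵥ δ j.1).toNat - 1) =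
            ∑ i, (lam j * MvPolynomial.eval p (MvPolynomial.pderiv i (F j.1))) *
              (if 1 ≤ (β ⬝ᵥ w i).toNat then (φ i).coeff ((β ⬝ᵥ w i).toNat - 1) else 0) := by
          intro j
          rw [coeff_pred_aeval (fun i => (β ⬝ᵥ w i).toNat) (β ⬝ᵥ δ j.1).toNat
            (by have := j.2; omega) (F j.1) (hF' j.1) φ h1, Finset.mul_sum]
          refine Finset.sum_congr rfl fun i _ => ?_
          simp only [h2]
          ring
        rw [Finset.sum_congr rfl fun j _ => h5 j, Finset.sum_comm]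
        refine Finset.sum_eq_zero fun i _ => ?_
        rw [← Finset.sum_mul]
        by_cases hi : 1 ≤ (β ⬝ᵥ w i).toNat
        · have h6 := congrFun hlam ⟨i, by omega⟩
          simp only [Finset.sum_apply, Pi.smul_apply, smul_eq_mul, Pi.zero_apply] at h6
          rw [h6, zero_mul]
        · rw [if_neg hi, mul_zero]
      rw [Finset.sum_eq_single j₀] at h4
      · rcases mul_eq_zero.1 h4 with h5 | h5
        · exact absurd h5 hj₀
        · exact h5
      · intro j _ hj
        have h6 : (0 : ℕ) < (β ⬝ᵥ δ j.1).toNat := by have := j.2; omega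
        have h5 := h3 ⟨j.1, ⟨(β ⬝ᵥ δ j.1).toNat - 1, by omega⟩⟩ (by
          rw [Finset.mem_erase]
          refine ⟨?_, Finset.mem_univ _⟩
          intro h
          apply hj
          have h7 := congrArg Sigma.fst h
          exact Subtype.ext h7)
        rw [h5, mul_zero]
      · intro h
        exact absurd (Finset.mem_univ _) h
    · exact h3 l (Finset.mem_erase.2 ⟨hl, Finset.mem_univ _⟩)

end Pool.Agent.H.MP_2786f0_ag.h70
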