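import Pool.Agent.H.MP_2786f0_ag.h70.Trail

/-!
# Numbers of unknowns and of equations at a smooth point
-/

namespace Pool.Agent.H.MP_2786f0_ag.h70

open MvPolynomial

variable {k : Type*} [Field k] {N c r : ℕ}

theorem degree_nonneg {w : Fin N → Fin r → ℤ} {η : Fin r → ℤ} {G : MvPolynomial (Fin N) k}
    (hG : G.IsWeightedHomogeneous w η) {p : Fin N → k} (β : Fin r → ℤ)
    (hβ : ∀ i, p i ≠ 0 → 0 ≤ β ⬝ᵥ w i) (h : eval p G ≠ 0) : 0 ≤ β ⬝ᵥ η := by
  rw [eval_eq'] at h
  obtain ⟨m, hm, h1⟩ := Finset.exists_ne_zero_of_sum_ne_zero h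
  rw [← weight_sum hG (mem_support_iff.1 hm), dot_sum]
  refine Finset.sum_nonneg fun i _ => ?_
  by_cases hi : m i = 0
  · rw [hi]; simp
  · refine mul_nonneg (by positivity) (hβ i fun h2 => ?_)
    apply right_ne_zero_of_mul h1
    exact Finset.prod_eq_zero (Finset.mem_univ i) (by rw [h2, zero_pow hi])

/-- A nonzero derivative at `p` bounds the degree of the variable. -/
theorem le_of_pderiv {w : Fin N → Fin r → ℤ} {δ : Fin r → ℤ} {F : MvPolynomial (Fin N) k}
    (hF : F.IsWeightedHomogeneous w δ) {p : Fin N → k} (β : Fin r → ℤ)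
    (hβ : ∀ i, p i ≠ 0 → 0 ≤ β ⬝ᵥ w i) (i : Fin N) (h : eval p (pderiv i F) ≠ 0) :
    β ⬝ᵥ w i ≤ β ⬝ᵥ δ := by
  have h1 := degree_nonneg (IsWeightedHomogeneous.pderiv (n' := δ - w i) (i := i) hF (by simp)) β
    hβ h
  rw [dotProduct_sub] at h1
  omega

/-- Distinct columns for independent rows. -/
theorem exists_injective {ι : Type*} [Finite ι] (M : ι → Fin N → k) (hM : LinearIndependent k M) :
    ∃ e : ι → Fin N, Function.Injective e ∧ ∀ j, M j (e j) ≠ 0 := by
  classical
  have := Fintype.ofFinite ι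
  obtain ⟨e, he, h⟩ := (Finset.all_card_le_biUnion_card_iff_exists_injective
    (fun j : ι => Finset.univ.filter fun i => M j i ≠ 0)).1 (by
    intro s
    set T := s.biUnion (fun j : ι => Finset.univ.filter fun i => M j i ≠ 0) with hT
    have h1 : LinearIndependent k (fun j : s => fun i : T => M j i) := by
      rw [Fintype.linearIndependent_iff]
      intro g hg
      have h2 : LinearIndependent k (fun j : s => M j) := hM.comp _ Subtype.val_injective
      rw [Fintype.linearIndependent_iff] at h2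
      apply h2
      funext i
      by_cases hi : i ∈ T
      · have h3 := congrFun hg ⟨i, hi⟩
        simpa using h3
      · rw [Finset.sum_apply, Pi.zero_apply]
        refine Finset.sum_eq_zero fun j _ => ?_
        have h3 : M j i = 0 := by
          by_contra h4
          apply hi
          rw [hT, Finset.mem_biUnion]
          exact ⟨j, j.2, Finset.mem_filter.2 ⟨Finset.mem_univ _, h4⟩⟩
        rw [Pi.smul_apply, h3, smul_zero]
    have h2 := h1.fintype_card_le_finrank
    rw [Module.finrank_fintype_fun_eq_card, Fintype.card_coe, Fintype.card_coe] at h2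
    exact h2)
  exact ⟨e, he, fun j => (Finset.mem_filter.1 (h j)).2⟩

/-- If as many equations as variables have negative degree, then a variable vanishes near the point. -/
theorem exists_unit {w : Fin N → Fin r → ℤ} {δ : Fin c → Fin r → ℤ}
    {F : Fin c → MvPolynomial (Fin N) k} (hF : ∀ j, (F j).IsWeightedHomogeneous w (δ j))
    {p : Fin N → k} (β : Fin r → ℤ) (hβ : ∀ i, p i ≠ 0 → 0 ≤ β ⬝ᵥ w i)
    (hsm : LinearIndependent k fun (j : Fin c) (i : Fin N) => eval p (pderiv i (F j)))
    (i₁ : Fin N) (hi₁ : β ⬝ᵥ w i₁ < 0)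
    (hcard : Fintype.card {i : Fin N // β ⬝ᵥ w i < 0} =
      Fintype.card {j : Fin c // β ⬝ᵥ δ j < 0}) :
    ∃ g : MvPolynomial (Fin N) k, g * X i₁ ∈ Ideal.span (Set.range F) ∧ eval p g ≠ 0 := by
  classical
  -- the equations are combinations of the variables of negative degree
  have hmem : ∀ j : {j : Fin c // β ⬝ᵥ δ j < 0}, ∃ G : {i : Fin N // β ⬝ᵥ w i < 0} →
      MvPolynomial (Fin N) k, ∑ i, G i * X i.1 = F j.1 := by
    intro j
    rw [← Ideal.mem_span_range_iff_exists_fun (v := fun i : {i : Fin N // β ⬝ᵥ w i < 0} =>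
      (X i.1 : MvPolynomial (Fin N) k))]
    have h1 : Set.range (fun i : {i : Fin N // β ⬝ᵥ w i < 0} =>
        (X i.1 : MvPolynomial (Fin N) k)) = X '' {i | β ⬝ᵥ w i < 0} := by
      ext x
      simp
    rw [h1, mem_ideal_span_X_image]
    intro m hm
    by_contra hcon
    push Not at hcon
    have h2 : 0 ≤ β ⬝ᵥ δ j.1 := by
      rw [← weight_sum (hF j.1) (mem_support_iff.1 hm), dot_sum]
      refine Finset.sum_nonneg fun i _ => ?_
      by_cases hi : β ⬝ᵥ w i < 0
      · rw [hcon i hi]; simp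
      · exact mul_nonneg (by positivity) (by omega)
    have := j.2
    omega
  choose G hG using hmem
  have hp0 : ∀ i : {i : Fin N // β ⬝ᵥ w i < 0}, p i.1 = 0 := by
    intro i
    by_contra h
    have h1 := hβ i.1 h
    have := i.2
    omega
  have hder : ∀ (j : {j : Fin c // β ⬝ᵥ δ j < 0}) (i' : Fin N),
      eval p (pderiv i' (F j.1)) = ∑ i, eval p (G j i) * (if i.1 = i' then 1 else 0) := by
    intro j i'
    rw [← hG j, map_sum, map_sum]
    refine Finset.sum_congr rfl fun i _ => ?_
    rw [Derivation.leibniz, smul_eq_mul, smul_eq_mul, pderiv_X, map_add, map_mul, map_mul, eval_X,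
      hp0 i, zero_mul, add_zero, Pi.single_apply]
    congr 1
    by_cases h : i.1 = i'
    · rw [if_pos h, if_pos h, map_one]
    · rw [if_neg h, if_neg h, map_zero]
  have e : {j : Fin c // β ⬝ᵥ δ j < 0} ≃ {i : Fin N // β ⬝ᵥ w i < 0} :=
    (Fintype.equivOfCardEq hcard).symm
  set M : Matrix {j : Fin c // β ⬝ᵥ δ j < 0} {j : Fin c // β ⬝ᵥ δ j < 0}
    (MvPolynomial (Fin N) k) := fun j j' => G j (e j') with hM
  refine ⟨M.det, ?_, ?_⟩
  · set v : {j : Fin c // β ⬝ᵥ δ j < 0} → MvPolynomial (Fin N) k := fun j' => X (e j').1 with hv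
    have h1 : M.mulVec v = fun j => F j.1 := by
      funext j
      rw [Matrix.mulVec, dotProduct, ← hG j, ← e.sum_comp]
    have h2 : M.adjugate.mulVec (M.mulVec v) = M.det • v := by
      rw [Matrix.mulVec_mulVec, Matrix.adjugate_mul, Matrix.smul_mulVec, Matrix.one_mulVec]
    have h3 := congrFun h2 (e.symm ⟨i₁, hi₁⟩)
    rw [h1, Pi.smul_apply, smul_eq_mul, hv] at h3
    beta_reduce at h3
    rw [Equiv.apply_symm_apply] at h3
    rw [← h3, Matrix.mulVec, dotProduct]
    exact Ideal.sum_mem _ fun j _ => Ideal.mul_mem_left _ _ (Ideal.subset_span ⟨j.1, rfl⟩)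
  · intro hdet
    have h1 : (M.map (eval p)).det = 0 := by
      rw [← RingHom.mapMatrix_apply, ← RingHom.map_det, hdet]
    obtain ⟨v, hv0, hv⟩ := Matrix.exists_vecMul_eq_zero_iff.2 h1
    have h2 : LinearIndependent k (fun (j : {j : Fin c // β ⬝ᵥ δ j < 0}) (i : Fin N) =>
        eval p (pderiv i (F j.1))) := hsm.comp (fun j : {j : Fin c // β ⬝ᵥ δ j < 0} => j.1)
          Subtype.val_injective
    rw [Fintype.linearIndependent_iff] at h2
    apply hv0
    funext j
    refine h2 v ?_ j
    funext i'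
    rw [Finset.sum_apply, Pi.zero_apply]
    simp only [Pi.smul_apply, smul_eq_mul, hder]
    by_cases hi' : β ⬝ᵥ w i' < 0
    · have h3 := congrFun hv (e.symm ⟨i', hi'⟩)
      rw [Matrix.vecMul, dotProduct, Pi.zero_apply] at h3
      refine Eq.trans ?_ h3
      refine Finset.sum_congr rfl fun j _ => ?_
      congr 1
      rw [Finset.sum_eq_single ⟨i', hi'⟩]
      · rw [if_pos rfl, mul_one, Matrix.map_apply, hM]
        beta_reduce
        rw [Equiv.apply_symm_apply]
      · intro i _ hi
        rw [if_neg (fun h => hi (Subtype.ext h)), mul_zero]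
      · intro h
        exact absurd (Finset.mem_univ _) h
    · refine Finset.sum_eq_zero fun j _ => ?_
      rw [Finset.sum_eq_zero, mul_zero]
      intro i _
      rw [if_neg, mul_zero]
      intro h
      apply hi'
      rw [← h]
      exact i.2

/-- **Unknowns and equations.** -/
theorem count {w : Fin N → Fin r → ℤ} {δ : Fin c → Fin r → ℤ}
    {F : Fin c → MvPolynomial (Fin N) k} (hF : ∀ j, (F j).IsWeightedHomogeneous w (δ j))
    {p : Fin N → k} (β : Fin r → ℤ) (hβ : ∀ i, p i ≠ 0 → 0 ≤ β ⬝ᵥ w i)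
    (hsm : LinearIndependent k fun (j : Fin c) (i : Fin N) => eval p (pderiv i (F j)))
    (hvar : ∀ (i : Fin N) (g : MvPolynomial (Fin N) k), g * X i ∈ Ideal.span (Set.range F) →
      eval p g = 0)
    (hdeg : 1 ≤ β ⬝ᵥ (∑ i, w i - ∑ j, δ j)) :
    (∀ i, 0 ≤ β ⬝ᵥ w i) ∧ β ⬝ᵥ (∑ i, w i - ∑ j, δ j) = 1 ∨
      ∑ j, (β ⬝ᵥ δ j).toNat + 2 ≤ ∑ i, (β ⬝ᵥ w i).toNat := by
  classical
  set b : Fin N → ℤ := fun i => β ⬝ᵥ w i with hb
  set d : Fin c → ℤ := fun j => β ⬝ᵥ δ j with hd
  have hdeg' : β ⬝ᵥ (∑ i, w i - ∑ j, δ j) = ∑ i, b i - ∑ j, d j := by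
    rw [dotProduct_sub, dotProduct_sum, dotProduct_sum]
  rw [hdeg'] at hdeg ⊢
  -- the injection
  obtain ⟨e, he, hne⟩ := exists_injective (fun (j : {j : Fin c // d j < 0}) (i : Fin N) =>
    eval p (pderiv i (F j.1))) (hsm.comp (fun j : {j : Fin c // d j < 0} => j.1)
      Subtype.val_injective)
  have hle : ∀ j : {j : Fin c // d j < 0}, b (e j) ≤ d j.1 := fun j =>
    le_of_pderiv (hF j.1) β hβ (e j) (hne j)
  have hneg : ∀ j : {j : Fin c // d j < 0}, b (e j) < 0 := fun j => (hle j).trans_lt j.2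
  set e' : {j : Fin c // d j < 0} → {i : Fin N // b i < 0} := fun j => ⟨e j, hneg j⟩ with he'
  have he'i : Function.Injective e' := fun j j' h => he (congrArg Subtype.val h)
  -- negative parts
  have h1 : ∑ i, b i = (∑ i, ((b i).toNat : ℤ)) - ∑ i : {i : Fin N // b i < 0}, (-b i.1) := by
    have h2 : ∀ i, b i = ((b i).toNat : ℤ) - (if b i < 0 then -b i else 0) := by
      intro i
      split_ifs with h
      · omega
      · omega
    rw [Finset.sum_congr rfl fun i _ => h2 i, Finset.sum_sub_distrib, ← Finset.sum_filter]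
    congr 1
    rw [Finset.sum_subtype (Finset.univ.filter fun i => b i < 0) (p := fun i => b i < 0)
      (by simp)]
  have h2 : ∑ j, d j = (∑ j, ((d j).toNat : ℤ)) - ∑ j : {j : Fin c // d j < 0}, (-d j.1) := by
    have h2 : ∀ j, d j = ((d j).toNat : ℤ) - (if d j < 0 then -d j else 0) := by
      intro j
      split_ifs with h
      · omega
      · omega
    rw [Finset.sum_congr rfl fun j _ => h2 j, Finset.sum_sub_distrib, ← Finset.sum_filter]
    congr 1
    rw [Finset.sum_subtype (Finset.univ.filter fun j => d j < 0) (p := fun j => d j < 0)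
      (by simp)]
  have h3 : ∑ j : {j : Fin c // d j < 0}, (-d j.1) ≤ ∑ j : {j : Fin c // d j < 0}, (-b (e' j).1) :=
    Finset.sum_le_sum fun j _ => by
      have := hle j
      show -d j.1 ≤ -b (e j)
      omega
  have h4 : ∑ j : {j : Fin c // d j < 0}, (-b (e' j).1) =
      ∑ i ∈ Finset.univ.image e', (-b i.1) := by
    rw [Finset.sum_image (fun _ _ _ _ h => he'i h)]
  have h5 : ∑ i ∈ Finset.univ.image e', (-b i.1) ≤ ∑ i : {i : Fin N // b i < 0}, (-b i.1) :=
    Finset.sum_le_sum_of_subset_of_nonneg (Finset.subset_univ _) fun i _ _ => by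
      have := i.2
      omega
  by_cases hcase : ∃ i, b i < 0
  · right
    obtain ⟨i₁, hi₁⟩ := hcase
    have h6 : ∑ j : {j : Fin c // d j < 0}, (-d j.1) + 1 ≤
        ∑ i : {i : Fin N // b i < 0}, (-b i.1) := by
      by_contra hcon
      have h7 : ∑ i ∈ Finset.univ.image e', (-b i.1) = ∑ i : {i : Fin N // b i < 0}, (-b i.1) := by
        omega
      have h8 : Finset.univ.image e' = Finset.univ := by
        by_contra hne'
        obtain ⟨i, hi⟩ : ∃ i, i ∉ Finset.univ.image e' := by
          by_contra hcon'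
          push Not at hcon'
          exact hne' (Finset.eq_univ_of_forall hcon')
        have h9 : ∑ i ∈ Finset.univ.image e', (-b i.1) <
            ∑ i : {i : Fin N // b i < 0}, (-b i.1) :=
          Finset.sum_lt_sum_of_subset (Finset.subset_univ _) (Finset.mem_univ i) hi
            (by have := i.2; omega) (fun i _ _ => by have := i.2; omega)
        omega
      have h9 : Function.Surjective e' := by
        intro i
        have : i ∈ Finset.univ.image e' := by rw [h8]; exact Finset.mem_univ _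
        obtain ⟨j, _, hj⟩ := Finset.mem_image.1 this
        exact ⟨j, hj⟩
      have h10 : Fintype.card {i : Fin N // b i < 0} = Fintype.card {j : Fin c // d j < 0} :=
        (Fintype.card_of_bijective ⟨he'i, h9⟩).symm
      obtain ⟨g, hg1, hg2⟩ := exists_unit hF β hβ hsm i₁ hi₁ h10
      exact hg2 (hvar i₁ g hg1)
    have h7 : ((∑ j, (d j).toNat + 2 : ℕ) : ℤ) ≤ ((∑ i, (b i).toNat : ℕ) : ℤ) := by
      push_cast
      omega
    exact_mod_cast h7
  · push Not at hcase
    rcases hdeg.lt_or_eq with h6 | h6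
    · right
      have h7 : ((∑ j, (d j).toNat + 2 : ℕ) : ℤ) ≤ ((∑ i, (b i).toNat : ℕ) : ℤ) := by
        push_cast
        omega
      exact_mod_cast h7
    · left
      exact ⟨hcase, h6.symm⟩

end Pool.Agent.H.MP_2786f0_ag.h70
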