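import Pool.Agent.H.MP_2786f0_ag.C.Final
import Pool.Agent.H.MP_2786f0_ag.h70.Smooth
import Pool.Agent.H.MP_2786f0_ag.h70.Lin

/-!
# Curves in the fibres of a fibration
-/

namespace Pool.Agent.H.MP_2786f0_ag.h70

open MvPolynomial

variable {k : Type*} [Field k] {N c r : ℕ}

theorem degree_nonneg_of_smooth {w : Fin N → Fin r → ℤ} {δ : Fin c → Fin r → ℤ}
    {F : Fin c → MvPolynomial (Fin N) k} (hF : ∀ j, (F j).IsWeightedHomogeneous w (δ j))
    {p : Fin N → k} (β : Fin r → ℤ) (hβ : ∀ i, 0 ≤ β ⬝ᵥ w i)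
    (hsm : LinearIndependent k fun (j : Fin c) (i : Fin N) => eval p (pderiv i (F j))) (j : Fin c) :
    0 ≤ β ⬝ᵥ δ j := by
  have h1 := hsm.ne_zero j
  obtain ⟨i, hi⟩ : ∃ i, eval p (pderiv i (F j)) ≠ 0 := by
    by_contra hcon
    push Not at hcon
    exact h1 (funext hcon)
  exact (hβ i).trans (le_of_pderiv (hF j) β (fun i _ => hβ i) i hi)

theorem sum_toNat {ι : Type*} [Fintype ι] (b : ι → ℤ) {n : ℕ} (e : {i // 0 < b i} ≃ Fin n) :
    ∑ l, (b (e.symm l).1).toNat = ∑ i, (b i).toNat := by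
  classical
  rw [e.symm.sum_comp (fun i : {i // 0 < b i} => (b i.1).toNat),
    ← Finset.sum_subtype (Finset.univ.filter fun i => 0 < b i) (by simp) (fun i => (b i).toNat),
    Finset.sum_filter]
  refine Finset.sum_congr rfl fun i _ => ?_
  split_ifs with h
  · rfl
  · omega

/-- Equations of degree zero only contain the variables of degree zero. -/
theorem aeval_degree_zero {A : Type*} [CommRing A] [Algebra k A] {w : Fin N → Fin r → ℤ}
    {δ : Fin r → ℤ} {F : MvPolynomial (Fin N) k} (hF : F.IsWeightedHomogeneous w δ)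
    (β : Fin r → ℤ) (hβ : ∀ i, 0 ≤ β ⬝ᵥ w i) (hδ : β ⬝ᵥ δ = 0) (p : Fin N → k) (f : Fin N → A)
    (hf : ∀ i, β ⬝ᵥ w i = 0 → f i = algebraMap k A (p i)) :
    aeval f F = algebraMap k A (eval p F) := by
  rw [aeval_def, eval₂_eq', eval_eq', map_sum]
  refine Finset.sum_congr rfl fun m hm => ?_
  rw [map_mul, map_prod]
  congr 1
  refine Finset.prod_congr rfl fun i _ => ?_
  rw [map_pow]
  by_cases hi : m i = 0
  · rw [hi, pow_zero, pow_zero]
  · rw [hf i]
    have h1 : ∑ i, (m i : ℤ) * (β ⬝ᵥ w i) = 0 := by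
      rw [← dot_sum, weight_sum hF (mem_support_iff.1 hm), hδ]
    have h3 := (Finset.sum_eq_zero_iff_of_nonneg
      (fun i _ => mul_nonneg (by positivity) (hβ i))).1 h1 i (Finset.mem_univ _)
    rcases mul_eq_zero.1 h3 with h5 | h5
    · exact absurd (by exact_mod_cast h5) hi
    · exact h5

open Classical in
/-- Curves of degree one in a fibre. -/
theorem fibre [IsAlgClosed k] {w : Fin N → Fin r → ℤ} {κ : Fin r → ℤ} {δ : Fin c → Fin r → ℤ}
    {F : Fin c → MvPolynomial (Fin N) k} (hF : ∀ j, (F j).IsWeightedHomogeneous w (δ j))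
    (hκ : κ = ∑ i, w i - ∑ j, δ j)
    (hfree : ∀ x : Fin N → k, IsPoint w κ F x → AddSubgroup.closure (w '' {i | x i ≠ 0}) = ⊤)
    {p : Fin N → k} (hp : IsPoint w κ F p) (β : Fin r → ℤ) (hβ : ∀ i, 0 ≤ β ⬝ᵥ w i)
    (hdel : ∀ j, 0 ≤ β ⬝ᵥ δ j) (hβκ : β ⬝ᵥ κ = 1)
    (hcount : Fintype.card {j : Fin c // 0 < β ⬝ᵥ δ j} + 3 ≤
      Fintype.card {i : Fin N // 0 < β ⬝ᵥ w i})
    (hss : ∀ x : Fin N → k, (∀ j, eval x (F j) = 0) → (∀ i, β ⬝ᵥ w i = 0 → x i = p i) →
      (∃ i, 0 < β ⬝ᵥ w i ∧ x i ≠ 0) → Semistable w κ x) :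
    IsCurveClass w κ F β := by
  set n₁ := Fintype.card {i : Fin N // 0 < β ⬝ᵥ w i} with hn₁
  set c₁ := Fintype.card {j : Fin c // 0 < β ⬝ᵥ δ j} with hc₁
  have e₁ : {i : Fin N // 0 < β ⬝ᵥ w i} ≃ Fin n₁ := Fintype.equivFin _
  have e₂ : {j : Fin c // 0 < β ⬝ᵥ δ j} ≃ Fin c₁ := Fintype.equivFin _
  set a' : Fin n₁ → ℕ := fun l => (β ⬝ᵥ w (e₁.symm l).1).toNat with ha'
  set d' : Fin c₁ → ℕ := fun l => (β ⬝ᵥ δ (e₂.symm l).1).toNat with hd'
  set σ : Fin N → MvPolynomial (Fin n₁) k := fun i =>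
    if h : 0 < β ⬝ᵥ w i then X (e₁ ⟨i, h⟩) else C (p i) with hσ
  have hσw : ∀ i, (σ i).IsWeightedHomogeneous a' (β ⬝ᵥ w i).toNat := by
    intro i
    rw [hσ]
    beta_reduce
    by_cases h : 0 < β ⬝ᵥ w i
    · rw [dif_pos h]
      have h1 := isWeightedHomogeneous_X k a' (e₁ ⟨i, h⟩)
      rw [ha'] at h1
      beta_reduce at h1
      rw [Equiv.symm_apply_apply] at h1
      exact h1
    · rw [dif_neg h]
      have h1 : (β ⬝ᵥ w i).toNat = 0 := by have := hβ i; omega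
      rw [h1]
      exact isWeightedHomogeneous_C _ _
  have hhom : ∀ j, (aeval σ (F j)).IsWeightedHomogeneous a' (β ⬝ᵥ δ j).toNat := by
    intro j
    rw [aeval_def, eval₂_eq']
    refine IsWeightedHomogeneous.sum _ _ _ fun m hm => ?_
    have h1 : (β ⬝ᵥ δ j).toNat = 0 + ∑ i, m i * (β ⬝ᵥ w i).toNat := by
      have h2 : ((∑ i, m i * (β ⬝ᵥ w i).toNat : ℕ) : ℤ) = β ⬝ᵥ δ j := by
        rw [← weight_sum (hF j) (mem_support_iff.1 hm), dot_sum, Nat.cast_sum]
        refine Finset.sum_congr rfl fun i _ => ?_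
        rw [Nat.cast_mul, Int.toNat_of_nonneg (hβ i)]
      omega
    rw [h1]
    refine (isWeightedHomogeneous_C a' _).mul ?_
    refine IsWeightedHomogeneous.prod _ _ _ fun i _ => ?_
    have h3 := (hσw i).pow (m i)
    rwa [smul_eq_mul] at h3
  -- points of the fibre
  have hfib : ∀ {A : Type _} [CommRing A] [Algebra k A] (x' : Fin n₁ → A) (f : Fin N → A),
      (∀ i (h : 0 < β ⬝ᵥ w i), f i = x' (e₁ ⟨i, h⟩)) →
      (∀ i, β ⬝ᵥ w i = 0 → f i = algebraMap k A (p i)) →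
      ∀ j, aeval f (F j) = aeval x' (aeval σ (F j)) := by
    intro A _ _ x' f h1 h2 j
    rw [← AlgHom.comp_apply, comp_aeval]
    congr 2
    funext i
    rw [hσ]
    beta_reduce
    by_cases h : 0 < β ⬝ᵥ w i
    · rw [dif_pos h, aeval_X, h1 i h]
    · rw [dif_neg h, h2 i (by have := hβ i; omega), ← MvPolynomial.algebraMap_eq, AlgHom.commutes]
  have hzero : ∀ {A : Type _} [CommRing A] [Algebra k A] (x' : Fin n₁ → A) (f : Fin N → A),
      (∀ i (h : 0 < β ⬝ᵥ w i), f i = x' (e₁ ⟨i, h⟩)) →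
      (∀ i, β ⬝ᵥ w i = 0 → f i = algebraMap k A (p i)) →
      (∀ l, aeval x' (aeval σ (F (e₂.symm l).1)) = 0) → ∀ j, aeval f (F j) = 0 := by
    intro A _ _ x' f h1 h2 h3 j
    rcases (hdel j).lt_or_eq with h | h
    · rw [hfib x' f h1 h2]
      have h4 := h3 (e₂ ⟨j, h⟩)
      rw [Equiv.symm_apply_apply] at h4
      exact h4
    · rw [aeval_degree_zero (hF j) β hβ h.symm p f h2, hp.1 j, map_zero]
  have hpt : ∀ x' : Fin n₁ → k, x' ≠ 0 → (∀ l, eval x' (aeval σ (F (e₂.symm l).1)) = 0) →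
      ∀ x : Fin N → k, (∀ i (h : 0 < β ⬝ᵥ w i), x i = x' (e₁ ⟨i, h⟩)) →
      (∀ i, β ⬝ᵥ w i = 0 → x i = p i) → IsPoint w κ F x := by
    intro x' hx' h3 x h1 h2
    have h4 : ∀ j, eval x (F j) = 0 := by
      intro j
      have h5 := hzero (A := k) x' x h1 h2 (fun l => by
        rw [aeval_eq_eval]
        exact h3 l) j
      rw [aeval_eq_eval] at h5
      exact h5
    refine ⟨h4, hss x h4 h2 ?_⟩
    obtain ⟨l, hl⟩ : ∃ l, x' l ≠ 0 := by
      by_contra hcon
      push Not at hcon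
      exact hx' (funext hcon)
    refine ⟨(e₁.symm l).1, (e₁.symm l).2, ?_⟩
    rw [h1 _ (e₁.symm l).2]
    have h5 : e₁ ⟨(e₁.symm l).1, (e₁.symm l).2⟩ = l := by
      rw [Subtype.coe_eta, Equiv.apply_symm_apply]
    rwa [h5]
  -- the theorem on curves of degree one
  obtain ⟨f', g1, g2, g3⟩ := exists_degree_one a' (fun l => by
      have := (e₁.symm l).2
      show 1 ≤ (β ⬝ᵥ w (e₁.symm l).1).toNat
      omega) d' (fun l => by
      have := (e₂.symm l).2
      show 1 ≤ (β ⬝ᵥ δ (e₂.symm l).1).toNat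
      omega) (fun l => aeval σ (F (e₂.symm l).1)) (fun l => hhom _) hcount
    (by
      have h1 : ∑ l, a' l = ∑ i, (β ⬝ᵥ w i).toNat := sum_toNat (fun i => β ⬝ᵥ w i) e₁
      have h2 : ∑ l, d' l = ∑ j, (β ⬝ᵥ δ j).toNat := sum_toNat (fun j => β ⬝ᵥ δ j) e₂
      rw [h1, h2]
      have h3 : ((∑ j, (β ⬝ᵥ δ j).toNat + 1 : ℕ) : ℤ) = ((∑ i, (β ⬝ᵥ w i).toNat : ℕ) : ℤ) := by
        rw [hκ, dotProduct_sub, dotProduct_sum, dotProduct_sum] at hβκ
        rw [Nat.cast_add, Nat.cast_sum, Nat.cast_sum, Finset.sum_congr rfl fun j _ =>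
          Int.toNat_of_nonneg (hdel j), Finset.sum_congr rfl fun i _ => Int.toNat_of_nonneg (hβ i)]
        push_cast
        omega
      exact (by exact_mod_cast h3 : ∑ j, (β ⬝ᵥ δ j).toNat + 1 = ∑ i, (β ⬝ᵥ w i).toNat).le)
    (fun x' hx' h3 rr hrr => by
      set x : Fin N → k := fun i => if h : 0 < β ⬝ᵥ w i then x' (e₁ ⟨i, h⟩) else p i with hx
      have h1 : ∀ i (h : 0 < β ⬝ᵥ w i), x i = x' (e₁ ⟨i, h⟩) := fun i h => by
        rw [hx]
        beta_reduce
        rw [dif_pos h]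
      have h2 : ∀ i, β ⬝ᵥ w i = 0 → x i = p i := fun i h => by
        rw [hx]
        beta_reduce
        rw [dif_neg (by omega)]
      have h4 := hfree x (hpt x' hx' h3 x h1 h2)
      have h5 : ∀ v : Fin r → ℤ, (rr : ℤ) ∣ β ⬝ᵥ v := by
        intro v
        have hv : v ∈ AddSubgroup.closure (w '' {i | x i ≠ 0}) := by rw [h4]; trivial
        induction hv using AddSubgroup.closure_induction with
        | mem v hv =>
          obtain ⟨i, hi, rfl⟩ := hv
          rcases (hβ i).lt_or_eq with h | h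
          · have h6 : rr ∣ (β ⬝ᵥ w i).toNat := by
              have h7 := hrr (e₁ ⟨i, h⟩) (by
                rw [← h1 i h]
                exact hi)
              rw [ha'] at h7
              beta_reduce at h7
              rwa [Equiv.symm_apply_apply] at h7
            have h8 : (rr : ℤ) ∣ (((β ⬝ᵥ w i).toNat : ℕ) : ℤ) := by exact_mod_cast h6
            rwa [Int.toNat_of_nonneg (hβ i)] at h8
          · rw [← h]
            exact dvd_zero _
        | zero => rw [dotProduct_zero]; exact dvd_zero _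
        | add a b _ _ ha hb => rw [dotProduct_add]; exact dvd_add ha hb
        | neg a _ ha => rw [dotProduct_neg]; exact ha.neg_right
      have h6 := h5 κ
      rw [hβκ] at h6
      have h7 : rr ∣ 1 := by exact_mod_cast h6
      exact Nat.dvd_one.1 h7)
  set f : Fin N → MvPolynomial (Fin 2) k := fun i =>
    if h : 0 < β ⬝ᵥ w i then f' (e₁ ⟨i, h⟩) else C (p i) with hf
  have hf1 : ∀ i (h : 0 < β ⬝ᵥ w i), f i = f' (e₁ ⟨i, h⟩) := fun i h => by
    rw [hf]
    beta_reduce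
    rw [dif_pos h]
  have hf2 : ∀ i, β ⬝ᵥ w i = 0 → f i = C (p i) := fun i h => by
    rw [hf]
    beta_reduce
    rw [dif_neg (by omega)]
  have hfF : ∀ j, aeval f (F j) = 0 := hzero f' f hf1 (fun i h => by
    rw [hf2 i h, MvPolynomial.algebraMap_eq]) g3
  refine ⟨f, fun i _ => ?_, hfF, fun u hu => ?_⟩
  · rcases (hβ i).lt_or_eq with h | h
    · refine ⟨(β ⬝ᵥ w i).toNat, Int.toNat_of_nonneg (hβ i), ?_⟩
      rw [hf1 i h]
      have h1 := g1 (e₁ ⟨i, h⟩)
      rw [ha'] at h1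
      beta_reduce at h1
      rwa [Equiv.symm_apply_apply] at h1
    · refine ⟨0, by rw [← h]; rfl, ?_⟩
      rw [hf2 i h.symm]
      exact isHomogeneous_C _ _
  · have h4 : ∀ j, eval (fun i => eval u (f i)) (F j) = 0 := by
      intro j
      have h5 := congrArg (eval u) (hfF j)
      have h6 := MvPolynomial.comp_aeval (R := k) f (MvPolynomial.aeval u :
        MvPolynomial (Fin 2) k →ₐ[k] k)
      have h7 := DFunLike.congr_fun h6 (F j)
      rw [map_zero] at h5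
      exact h7.symm.trans h5
    refine hss _ h4 (fun i hi => ?_) ?_
    · rw [hf2 i hi, eval_C]
    · obtain ⟨l, hl⟩ := g2 u hu
      refine ⟨(e₁.symm l).1, (e₁.symm l).2, ?_⟩
      rw [hf1 _ (e₁.symm l).2]
      have h5 : e₁ ⟨(e₁.symm l).1, (e₁.symm l).2⟩ = l := by
        rw [Subtype.coe_eta, Equiv.apply_symm_apply]
      rwa [h5]

end Pool.Agent.H.MP_2786f0_ag.h70
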