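import Pool.Agent.H.MP_2786f0_ag.h70.Step
import Pool.Agent.H.MP_2786f0_ag.h70.Fibre

/-!
# The classes of rational curves generate
-/

namespace Pool.Agent.H.MP_2786f0_ag.h70

open MvPolynomial

variable {k : Type*} [Field k] {N c r : ℕ}

theorem exists_index {w : Fin N → Fin r → ℤ} {κ : Fin r → ℤ}
    {F : Fin c → MvPolynomial (Fin N) k}
    (hfree : ∀ x : Fin N → k, IsPoint w κ F x → AddSubgroup.closure (w '' {i | x i ≠ 0}) = ⊤)
    {p : Fin N → k} (hp : IsPoint w κ F p) (β : Fin r → ℤ) (hβ0 : β ≠ 0)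
    (hβ : ∀ i, p i ≠ 0 → 0 ≤ β ⬝ᵥ w i) : ∃ i, p i ≠ 0 ∧ 0 < β ⬝ᵥ w i := by
  by_contra hcon
  push Not at hcon
  exact hβ0 (dot_zero_of_closure (hfree p hp) β fun i hi => le_antisymm (hcon i hi) (hβ i hi))

open Classical in
/-- Every class which is nonnegative on the weights of the nonzero coordinates of a point is a sum of
classes of rational curves. -/
theorem main [IsAlgClosed k] {w : Fin N → Fin r → ℤ} {κ : Fin r → ℤ} {δ : Fin c → Fin r → ℤ}
    {F : Fin c → MvPolynomial (Fin N) k} (hF : ∀ j, (F j).IsWeightedHomogeneous w (δ j))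
    (hproj : ∃ l : Fin r → ℤ, ∀ i, 0 < l ⬝ᵥ w i)
    (hκ : κ = ∑ i, w i - ∑ j, δ j)
    (hfree : ∀ x : Fin N → k, IsPoint w κ F x → AddSubgroup.closure (w '' {i | x i ≠ 0}) = ⊤)
    (hsm : ∀ x : Fin N → k, IsPoint w κ F x →
      LinearIndependent k fun (j : Fin c) (i : Fin N) => eval x (pderiv i (F j)))
    (hvar : ∀ x : Fin N → k, IsPoint w κ F x → ∀ (i : Fin N) (g : MvPolynomial (Fin N) k),
      g * X i ∈ Ideal.span (Set.range F) → eval x g = 0)
    (hmov : ∀ β : Fin r → ℤ, (∀ i, 0 ≤ β ⬝ᵥ w i) → β ⬝ᵥ κ = 1 →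
      (∃ x : Fin N → k, IsPoint w κ F x ∧ ¬ LinearIndependent k
        fun (j : {j : Fin c // 0 < β ⬝ᵥ δ j}) (i : {i : Fin N // 0 < β ⬝ᵥ w i}) =>
          eval x (pderiv i.1 (F j.1))) ∨
      (Fintype.card {j : Fin c // 0 < β ⬝ᵥ δ j} + 3 ≤ Fintype.card {i : Fin N // 0 < β ⬝ᵥ w i} ∧
        ∃ p : Fin N → k, IsPoint w κ F p ∧ ∀ x : Fin N → k, (∀ j, eval x (F j) = 0) →
          (∀ i, β ⬝ᵥ w i = 0 → x i = p i) → (∃ i, 0 < β ⬝ᵥ w i ∧ x i ≠ 0) →
            Semistable w κ x)) (n : ℕ) :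
    ∀ (β : Fin r → ℤ) (p : Fin N → k), IsPoint w κ F p → (∀ i, p i ≠ 0 → 0 ≤ β ⬝ᵥ w i) →
      β ⬝ᵥ κ ≤ n → β ∈ AddSubmonoid.closure {β | IsCurveClass w κ F β} := by
  have := IsAlgClosed.instInfinite (K := k)
  induction n with
  | zero =>
    intro β p hp hβ hn
    by_cases hβ0 : β = 0
    · rw [hβ0]
      exact zero_mem _
    · have := strict hF hfree hp β hβ0 hβ
      push_cast at hn
      omega
  | succ n ih =>
    intro β p hp hβ hn
    by_cases hβ0 : β = 0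
    · rw [hβ0]
      exact zero_mem _
    have hpos := strict hF hfree hp β hβ0 hβ
    rcases count hF β hβ (hsm p hp) (hvar p hp) (by rw [← hκ]; omega) with ⟨h1, h2⟩ | h1
    · rw [← hκ] at h2
      apply AddSubmonoid.subset_closure
      have hdel := degree_nonneg_of_smooth hF β h1 (hsm p hp)
      rcases hmov β h1 h2 with ⟨x, hx, hdep⟩ | ⟨hcard, q, hq, hss⟩
      · obtain ⟨i₀, hx₀, hi₀⟩ := exists_index hfree hx β hβ0 (fun i _ => h1 i)
        obtain ⟨φ, g1, g2, g3, g4, g5⟩ := exists_sol_dep hF hx.1 β h1 i₀ hi₀ (by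
          have h3 : ((∑ j, (β ⬝ᵥ δ j).toNat + 1 : ℕ) : ℤ) =
              ((∑ i, (β ⬝ᵥ w i).toNat : ℕ) : ℤ) := by
            rw [hκ, dotProduct_sub, dotProduct_sum, dotProduct_sum] at h2
            rw [Nat.cast_add, Nat.cast_sum, Nat.cast_sum, Finset.sum_congr rfl fun j _ =>
              Int.toNat_of_nonneg (hdel j), Finset.sum_congr rfl fun i _ =>
              Int.toNat_of_nonneg (h1 i)]
            push_cast
            omega
          exact (by exact_mod_cast h3 :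
            ∑ j, (β ⬝ᵥ δ j).toNat + 1 = ∑ i, (β ⬝ᵥ w i).toNat).le) hdep
        rcases split hF hproj hfree hx β (fun i _ => h1 i) φ g1 g2 g3 i₀ hi₀ hx₀ g4 g5 with
          h | ⟨γ, hγ0, hγβ, ⟨y, hy, hyγ⟩, hβγ⟩
        · exact h
        · exfalso
          have h3 := strict hF hfree hy γ hγ0 hyγ
          have h4 := strict hF hfree hx (β - γ) (sub_ne_zero.2 hγβ.symm) hβγ
          rw [sub_dotProduct] at h4
          omega
      · exact fibre hF hκ hfree hq β h1 hdel h2 hcard hss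
    · obtain ⟨i₀, hp₀, hi₀⟩ := exists_index hfree hp β hβ0 hβ
      obtain ⟨φ, g1, g2, g3, g4, g5⟩ := exists_sol_full hF hp.1 β hβ i₀ hi₀ h1
      rcases split hF hproj hfree hp β hβ φ g1 g2 g3 i₀ hi₀ hp₀ g4 g5 with
        h | ⟨γ, hγ0, hγβ, ⟨y, hy, hyγ⟩, hβγ⟩
      · exact AddSubmonoid.subset_closure h
      · have h3 := strict hF hfree hy γ hγ0 hyγ
        have h4 := strict hF hfree hp (β - γ) (sub_ne_zero.2 hγβ.symm) hβγ
        have h5 : (β - γ) ⬝ᵥ κ = β ⬝ᵥ κ - γ ⬝ᵥ κ := sub_dotProduct _ _ _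
        push_cast at hn
        have h6 := ih γ y hy hyγ (by omega)
        have h7 := ih (β - γ) p hp hβγ (by omega)
        have h8 := add_mem h6 h7
        rwa [add_sub_cancel] at h8

open Classical in
/-- **The theorem.** -/
theorem curve_classes_generate [IsAlgClosed k] {w : Fin N → Fin r → ℤ} {κ : Fin r → ℤ}
    {δ : Fin c → Fin r → ℤ}
    {F : Fin c → MvPolynomial (Fin N) k} (hF : ∀ j, (F j).IsWeightedHomogeneous w (δ j))
    (hproj : ∃ l : Fin r → ℤ, ∀ i, 0 < l ⬝ᵥ w i)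
    (hκ : κ = ∑ i, w i - ∑ j, δ j) (hne : ∃ x : Fin N → k, IsPoint w κ F x)
    (hfree : ∀ x : Fin N → k, IsPoint w κ F x → AddSubgroup.closure (w '' {i | x i ≠ 0}) = ⊤)
    (hsm : ∀ x : Fin N → k, IsPoint w κ F x →
      LinearIndependent k fun (j : Fin c) (i : Fin N) => eval x (pderiv i (F j)))
    (hvar : ∀ x : Fin N → k, IsPoint w κ F x → ∀ (i : Fin N) (g : MvPolynomial (Fin N) k),
      g * X i ∈ Ideal.span (Set.range F) → eval x g = 0)
    (hmov : ∀ β : Fin r → ℤ, (∀ i, 0 ≤ β ⬝ᵥ w i) → β ⬝ᵥ κ = 1 →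
      (∃ x : Fin N → k, IsPoint w κ F x ∧ ¬ LinearIndependent k
        fun (j : {j : Fin c // 0 < β ⬝ᵥ δ j}) (i : {i : Fin N // 0 < β ⬝ᵥ w i}) =>
          eval x (pderiv i.1 (F j.1))) ∨
      (Fintype.card {j : Fin c // 0 < β ⬝ᵥ δ j} + 3 ≤ Fintype.card {i : Fin N // 0 < β ⬝ᵥ w i} ∧
        ∃ p : Fin N → k, IsPoint w κ F p ∧ ∀ x : Fin N → k, (∀ j, eval x (F j) = 0) →
          (∀ i, β ⬝ᵥ w i = 0 → x i = p i) → (∃ i, 0 < β ⬝ᵥ w i ∧ x i ≠ 0) →
            Semistable w κ x)) :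
    (∀ (β : Fin r → ℤ) (p : Fin N → k), IsPoint w κ F p → (∀ i, p i ≠ 0 → 0 ≤ β ⬝ᵥ w i) →
      β ∈ AddSubmonoid.closure {β | IsCurveClass w κ F β}) ∧
    AddSubgroup.closure {β | IsCurveClass w κ F β} = ⊤ := by
  have h1 : ∀ (β : Fin r → ℤ) (p : Fin N → k), IsPoint w κ F p → (∀ i, p i ≠ 0 → 0 ≤ β ⬝ᵥ w i) →
      β ∈ AddSubmonoid.closure {β | IsCurveClass w κ F β} := fun β p hp hβ =>
    main hF hproj hκ hfree hsm hvar hmov (β ⬝ᵥ κ).toNat β p hp hβ (by omega)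
  refine ⟨h1, ?_⟩
  rw [eq_top_iff]
  intro β _
  obtain ⟨p, hp⟩ := hne
  obtain ⟨l, hl⟩ := hproj
  have hle : AddSubmonoid.closure {β | IsCurveClass w κ F β} ≤
      (AddSubgroup.closure {β | IsCurveClass w κ F β}).toAddSubmonoid :=
    AddSubmonoid.closure_le.2 AddSubgroup.subset_closure
  set M : ℤ := ∑ i, |β ⬝ᵥ w i| with hM
  have hM0 : 0 ≤ M := Finset.sum_nonneg fun i _ => abs_nonneg _
  have h2 := hle (h1 (M • l + β) p hp (fun i _ => by
    rw [add_dotProduct, smul_dotProduct, smul_eq_mul]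
    have h5 : |β ⬝ᵥ w i| ≤ M :=
      Finset.single_le_sum (f := fun i => |β ⬝ᵥ w i|) (fun _ _ => abs_nonneg _)
        (Finset.mem_univ i)
    have h6 : -(β ⬝ᵥ w i) ≤ |β ⬝ᵥ w i| := neg_le_abs _
    have h7 := hl i
    nlinarith))
  have h3 := hle (h1 (M • l) p hp (fun i _ => by
    rw [smul_dotProduct, smul_eq_mul]
    exact mul_nonneg hM0 (hl i).le))
  have h4 := AddSubgroup.sub_mem _ (show M • l + β ∈ AddSubgroup.closure _ from h2)
    (show M • l ∈ AddSubgroup.closure _ from h3)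
  rwa [add_sub_cancel_left] at h4

end Pool.Agent.H.MP_2786f0_ag.h70
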