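import Pool.Agent.H.MP_2786f0_ag.h70.Trail

/-!
# Positivity of the degree, and base points
-/

namespace Pool.Agent.H.MP_2786f0_ag.h70

open Polynomial

variable {k : Type*} [Field k] {N c r : ℕ}

theorem pr_eq_dot (γ : Fin r → ℤ) (v : Fin r → ℤ) :
    pr (fun l => (γ l : ℚ)) v = ((γ ⬝ᵥ v : ℤ) : ℚ) := by
  simp [pr, dotProduct]

theorem exists_int (γ : Fin r → ℚ) :
    ∃ (D : ℕ) (γ' : Fin r → ℤ), 0 < D ∧ (fun l => (γ' l : ℚ)) = (D : ℚ) • γ := by
  classical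
  refine ⟨∏ l, (γ l).den, fun l => (γ l).num * ∏ l' ∈ Finset.univ.erase l, ((γ l').den : ℤ),
    Finset.prod_pos fun l _ => (γ l).pos, ?_⟩
  funext l
  rw [Pi.smul_apply, smul_eq_mul, ← Finset.mul_prod_erase Finset.univ _ (Finset.mem_univ l)]
  push_cast
  have h : ((γ l).den : ℚ) * γ l = (γ l).num := by
    rw [mul_comm]
    exact Rat.mul_den_eq_num _
  rw [← h]
  ring

theorem Semistable.mono {w : Fin N → Fin r → ℤ} {κ : Fin r → ℤ} {k' : Type*} [Field k']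
    {x : Fin N → k} {y : Fin N → k'}
    (hx : Semistable w κ x) (h : ∀ i, x i ≠ 0 → y i ≠ 0) : Semistable w κ y :=
  fun γ hγ => hx γ fun i hi => hγ i (h i hi)

theorem semistable_rat {w : Fin N → Fin r → ℤ} {κ : Fin r → ℤ} {x : Fin N → k}
    (hx : Semistable w κ x) (γ : Fin r → ℚ) (h : ∀ i, x i ≠ 0 → 0 ≤ pr γ (w i)) :
    0 ≤ pr γ κ := by
  obtain ⟨D, γ', hD, hγ⟩ := exists_int γ
  have hD' : (0 : ℚ) < D := by exact_mod_cast hD
  have h1 := hx γ' (fun i hi => by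
    have h2 : (0 : ℚ) ≤ ((γ' ⬝ᵥ w i : ℤ) : ℚ) := by
      rw [← pr_eq_dot, hγ, pr_smul]
      exact mul_nonneg hD'.le (h i hi)
    exact_mod_cast h2)
  have h2 : (0 : ℚ) ≤ ((γ' ⬝ᵥ κ : ℤ) : ℚ) := by exact_mod_cast h1
  rw [← pr_eq_dot, hγ, pr_smul] at h2
  exact nonneg_of_mul_nonneg_right h2 hD'

theorem dot_zero_of_closure {w : Fin N → Fin r → ℤ} {x : Fin N → k}
    (h : AddSubgroup.closure (w '' {i | x i ≠ 0}) = ⊤) (γ : Fin r → ℤ)
    (hγ : ∀ i, x i ≠ 0 → γ ⬝ᵥ w i = 0) : γ = 0 := by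
  have h1 : ∀ v : Fin r → ℤ, γ ⬝ᵥ v = 0 := by
    intro v
    have hv : v ∈ AddSubgroup.closure (w '' {i | x i ≠ 0}) := by rw [h]; trivial
    induction hv using AddSubgroup.closure_induction with
    | mem v hv =>
      obtain ⟨i, hi, rfl⟩ := hv
      exact hγ i hi
    | zero => exact dotProduct_zero _
    | add a b _ _ ha hb => rw [dotProduct_add, ha, hb, add_zero]
    | neg a _ ha => rw [dotProduct_neg, ha, neg_zero]
  funext l
  have h2 := h1 (Pi.single l 1)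
  simpa using h2

theorem exists_int_of_closure {w : Fin N → Fin r → ℤ} {x : Fin N → k}
    (h : AddSubgroup.closure (w '' {i | x i ≠ 0}) = ⊤) (γ : Fin r → ℚ)
    (hγ : ∀ i, x i ≠ 0 → ∃ n : ℤ, pr γ (w i) = n) : ∃ γ' : Fin r → ℤ, (fun l => (γ' l : ℚ)) = γ := by
  have h1 : ∀ v : Fin r → ℤ, ∃ n : ℤ, pr γ v = n := by
    intro v
    have hv : v ∈ AddSubgroup.closure (w '' {i | x i ≠ 0}) := by rw [h]; trivial
    induction hv using AddSubgroup.closure_induction with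
    | mem v hv =>
      obtain ⟨i, hi, rfl⟩ := hv
      exact hγ i hi
    | zero => exact ⟨0, by simp [pr]⟩
    | add a b _ _ ha hb =>
      obtain ⟨m, hm⟩ := ha
      obtain ⟨n, hn⟩ := hb
      refine ⟨m + n, ?_⟩
      push_cast
      rw [← hm, ← hn]
      simp [pr, mul_add, Finset.sum_add_distrib]
    | neg a _ ha =>
      obtain ⟨m, hm⟩ := ha
      refine ⟨-m, ?_⟩
      push_cast
      rw [← hm]
      simp [pr]
  have h2 : ∀ l, ∃ n : ℤ, (n : ℚ) = γ l := by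
    intro l
    obtain ⟨n, hn⟩ := h1 (Pi.single l 1)
    refine ⟨n, ?_⟩
    rw [← hn]
    simp [pr, Pi.single_apply]
  choose γ' hγ' using h2
  exact ⟨γ', funext hγ'⟩

/-- The degree of a class which is nonnegative on the weights of the nonzero coordinates of a point. -/
theorem strict {w : Fin N → Fin r → ℤ} {κ : Fin r → ℤ} {δ : Fin c → Fin r → ℤ}
    {F : Fin c → MvPolynomial (Fin N) k} (hF : ∀ j, (F j).IsWeightedHomogeneous w (δ j))
    (hfree : ∀ x : Fin N → k, IsPoint w κ F x → AddSubgroup.closure (w '' {i | x i ≠ 0}) = ⊤)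
    {p : Fin N → k} (hp : IsPoint w κ F p) (γ : Fin r → ℤ) (hγ : γ ≠ 0)
    (h : ∀ i, p i ≠ 0 → 0 ≤ γ ⬝ᵥ w i) : 0 < γ ⬝ᵥ κ := by
  classical
  rcases (hp.2 γ h).lt_or_eq with h1 | h1
  · exact h1
  exfalso
  apply hγ
  set q : Fin N → k := fun i => if γ ⬝ᵥ w i = 0 then p i else 0 with hq
  have hq0 : ∀ i, q i ≠ 0 → p i ≠ 0 ∧ γ ⬝ᵥ w i = 0 := by
    intro i hi
    rw [hq] at hi
    beta_reduce at hi
    split_ifs at hi with h2
    · exact ⟨hi, h2⟩
    · exact absurd rfl hi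
  have hqp : IsPoint w κ F q := by
    refine ⟨fun j => eval_face (hF j) p (hp.1 j) γ h, fun γ' hγ' => ?_⟩
    -- `M γ + γ'` is nonnegative on the weights of `p`
    set M : ℤ := ∑ i, |γ' ⬝ᵥ w i| with hM
    have h2 := hp.2 (M • γ + γ') (fun i hi => by
      rw [add_dotProduct, smul_dotProduct, smul_eq_mul]
      by_cases h3 : γ ⬝ᵥ w i = 0
      · rw [h3, mul_zero, zero_add]
        apply hγ'
        rw [hq]
        beta_reduce
        rw [if_pos h3]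
        exact hi
      · have h4 : 1 ≤ γ ⬝ᵥ w i := by
          have := h i hi
          omega
        have h5 : |γ' ⬝ᵥ w i| ≤ M :=
          Finset.single_le_sum (f := fun i => |γ' ⬝ᵥ w i|) (fun _ _ => abs_nonneg _)
            (Finset.mem_univ i)
        have h6 : -(γ' ⬝ᵥ w i) ≤ |γ' ⬝ᵥ w i| := neg_le_abs _
        have h7 : 0 ≤ M := (abs_nonneg _).trans h5
        nlinarith)
    rw [add_dotProduct, smul_dotProduct, smul_eq_mul, ← h1, mul_zero, zero_add] at h2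
    exact h2
  exact dot_zero_of_closure (hfree q hqp) γ fun i hi => (hq0 i hi).2

theorem strict_rat {w : Fin N → Fin r → ℤ} {κ : Fin r → ℤ} {δ : Fin c → Fin r → ℤ}
    {F : Fin c → MvPolynomial (Fin N) k} (hF : ∀ j, (F j).IsWeightedHomogeneous w (δ j))
    (hfree : ∀ x : Fin N → k, IsPoint w κ F x → AddSubgroup.closure (w '' {i | x i ≠ 0}) = ⊤)
    {p : Fin N → k} (hp : IsPoint w κ F p) (γ : Fin r → ℚ) (hγ : γ ≠ 0)
    (h : ∀ i, p i ≠ 0 → 0 ≤ pr γ (w i)) : 0 < pr γ κ := by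
  obtain ⟨D, γ', hD, hγ'⟩ := exists_int γ
  have hD' : (0 : ℚ) < D := by exact_mod_cast hD
  have h0 : γ' ≠ 0 := by
    rintro rfl
    apply hγ
    funext l
    have h1 := congrFun hγ' l
    simp only [Pi.smul_apply, smul_eq_mul, Pi.zero_apply, Int.cast_zero] at h1
    rcases mul_eq_zero.1 h1.symm with h2 | h2
    · exact absurd h2 hD'.ne'
    · exact h2
  have h1 := strict hF hfree hp γ' h0 (fun i hi => by
    have h2 : (0 : ℚ) ≤ ((γ' ⬝ᵥ w i : ℤ) : ℚ) := by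
      rw [← pr_eq_dot, hγ', pr_smul]
      exact mul_nonneg hD'.le (h i hi)
    exact_mod_cast h2)
  have h2 : (0 : ℚ) < ((γ' ⬝ᵥ κ : ℤ) : ℚ) := by exact_mod_cast h1
  rw [← pr_eq_dot, hγ', pr_smul] at h2
  exact (mul_pos_iff_of_pos_left hD').1 h2

/-- **Base points.** At a base point of a solution a nonzero class splits off. -/
theorem base {w : Fin N → Fin r → ℤ} {κ : Fin r → ℤ} {δ : Fin c → Fin r → ℤ}
    {F : Fin c → MvPolynomial (Fin N) k} (hF : ∀ j, (F j).IsWeightedHomogeneous w (δ j))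
    (hproj : ∃ l : Fin r → ℤ, ∀ i, 0 < l ⬝ᵥ w i)
    (hfree : ∀ x : Fin N → k, IsPoint w κ F x → AddSubgroup.closure (w '' {i | x i ≠ 0}) = ⊤)
    {p : Fin N → k} (hp : IsPoint w κ F p) (g : Fin N → k[X])
    (hgF : ∀ j, MvPolynomial.aeval g (F j) = 0) (hsupp : ∀ i, p i ≠ 0 → g i ≠ 0)
    (hns : ¬ Semistable w κ (fun i => (g i).eval 0)) :
    ∃ γ : Fin r → ℤ, γ ≠ 0 ∧ (∀ i, g i ≠ 0 → γ ⬝ᵥ w i ≤ (g i).natTrailingDegree) ∧
      ∃ x, IsPoint w κ F x ∧ ∀ i, x i ≠ 0 → 0 ≤ γ ⬝ᵥ w i := by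
  classical
  obtain ⟨l, hl⟩ := hproj
  obtain ⟨γ, hγ1, hγ2⟩ := lp (Finset.univ.filter fun i => g i ≠ 0) w
    (fun i => ((g i).natTrailingDegree : ℚ)) κ (fun l' => (l l' : ℚ)) (fun i _ => by
      rw [pr_eq_dot]
      exact_mod_cast hl i) (fun γ hγ h => strict_rat hF hfree hp γ hγ fun i hi =>
        h i (Finset.mem_filter.2 ⟨Finset.mem_univ _, hsupp i hi⟩))
  have hγ3 : ∀ i, g i ≠ 0 → pr γ (w i) ≤ ((g i).natTrailingDegree : ℚ) := fun i hi =>
    hγ1 i (Finset.mem_filter.2 ⟨Finset.mem_univ _, hi⟩)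
  have hx : IsPoint w κ F (lead w g γ) := by
    refine ⟨fun j => trail (hF j) g (hgF j) γ hγ3, fun γ' hγ' => ?_⟩
    have h1 := hγ2 (fun l => (γ' l : ℚ)) (fun i hi h2 => by
      rw [pr_eq_dot]
      have h3 := hγ' i (lead_ne_zero.2 ⟨(Finset.mem_filter.1 hi).2, h2⟩)
      exact_mod_cast h3)
    rw [pr_eq_dot] at h1
    exact_mod_cast h1
  obtain ⟨γ', hγ'⟩ := exists_int_of_closure (hfree _ hx) γ (fun i hi =>
    ⟨((g i).natTrailingDegree : ℤ), by rw [(lead_ne_zero.1 hi).2]; push_cast; rfl⟩)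
  have hdot : ∀ v, ((γ' ⬝ᵥ v : ℤ) : ℚ) = pr γ v := by
    intro v
    rw [← pr_eq_dot, hγ']
  refine ⟨γ', ?_, ?_, lead w g γ, hx, ?_⟩
  · rintro rfl
    apply hns
    have hγ0 : γ = 0 := by
      rw [← hγ']
      funext l
      simp
    refine hx.2.mono fun i hi => ?_
    obtain ⟨h1, h2⟩ := lead_ne_zero.1 hi
    have h3 : (g i).natTrailingDegree = 0 := by
      rw [hγ0] at h2
      have h4 : ((g i).natTrailingDegree : ℚ) = 0 := by
        rw [← h2]
        simp [pr]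
      exact_mod_cast h4
    rw [← coeff_zero_eq_eval_zero]
    have h5 := trailingCoeff_nonzero_iff_nonzero.2 h1
    rwa [trailingCoeff, h3] at h5
  · intro i hi
    have h1 := hγ3 i hi
    rw [← hdot] at h1
    exact_mod_cast h1
  · intro i hi
    have h1 : (0 : ℚ) ≤ ((γ' ⬝ᵥ w i : ℤ) : ℚ) := by
      rw [hdot, (lead_ne_zero.1 hi).2]
      positivity
    exact_mod_cast h1

end Pool.Agent.H.MP_2786f0_ag.h70
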