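import Pool.Agent.H.MP_2786f0_ag.C.Reduce
import Pool.Agent.H.MP_2786f0_ag.h70.Strict
import Pool.Agent.H.MP_2786f0_ag.h70.Exist

/-!
# A solution is a curve, or its class splits
-/

namespace Pool.Agent.H.MP_2786f0_ag.h70

open Polynomial

variable {k : Type*} [Field k] {N c r : ℕ}

/-- The binary forms of a solution satisfy the equations. -/
theorem aeval_hom [Infinite k] (a : Fin N → ℕ) (d : ℕ) (F : MvPolynomial (Fin N) k)
    (hF : F.IsWeightedHomogeneous a d) (φ : Fin N → k[X]) (hφ : ∀ i, (φ i).natDegree ≤ a i)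
    (hφF : MvPolynomial.aeval φ F = 0) :
    MvPolynomial.aeval (fun i => hom (a i) (φ i)) F = 0 := by
  apply MvPolynomial.funext
  intro u
  rw [map_zero]
  have h1 : MvPolynomial.eval u (MvPolynomial.aeval (fun i => hom (a i) (φ i)) F) =
      MvPolynomial.eval (fun i => MvPolynomial.eval u (hom (a i) (φ i))) F := by
    have h2 := MvPolynomial.comp_aeval (R := k) (fun i => hom (a i) (φ i))
      (MvPolynomial.aeval u : MvPolynomial (Fin 2) k →ₐ[k] k)
    have h3 := DFunLike.congr_fun h2 F
    exact h3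
  rw [h1]
  by_cases h : u 1 = 0
  · simp only [eval_hom_zero _ _ _ h]
    rw [eval_scale a d F hF]
    have h2 := (aeval_degree' a d F hF φ hφ).2
    rw [hφF, coeff_zero] at h2
    have h3 : MvPolynomial.eval (fun i => (φ i).coeff (a i)) F = 0 := h2.symm
    rw [h3, mul_zero]
  · have h2 : (fun i => MvPolynomial.eval u (hom (a i) (φ i))) =
        fun i => u 1 ^ a i * (φ i).eval (u 0 / u 1) := by
      funext i
      exact eval_hom _ _ (hφ i) _ h
    rw [h2, eval_scale a d F hF]
    have h3 : MvPolynomial.eval (fun i => (φ i).eval (u 0 / u 1)) F =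
        (MvPolynomial.aeval φ F).eval (u 0 / u 1) := by
      have h4 := MvPolynomial.comp_aeval (R := k) φ
        (aeval (u 0 / u 1) : k[X] →ₐ[k] k)
      have h5 := DFunLike.congr_fun h4 F
      exact h5.symm
    rw [h3, hφF, eval_zero, mul_zero]

theorem hom_zero (b : ℕ) : hom b (0 : k[X]) = 0 := by
  rw [hom]
  refine Finset.sum_eq_zero fun m _ => ?_
  rw [coeff_zero, MvPolynomial.C_0, zero_mul]

/-- **The step.** -/
theorem split [Infinite k] {w : Fin N → Fin r → ℤ} {κ : Fin r → ℤ} {δ : Fin c → Fin r → ℤ}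
    {F : Fin c → MvPolynomial (Fin N) k} (hF : ∀ j, (F j).IsWeightedHomogeneous w (δ j))
    (hproj : ∃ l : Fin r → ℤ, ∀ i, 0 < l ⬝ᵥ w i)
    (hfree : ∀ x : Fin N → k, IsPoint w κ F x → AddSubgroup.closure (w '' {i | x i ≠ 0}) = ⊤)
    {p : Fin N → k} (hp : IsPoint w κ F p) (β : Fin r → ℤ) (hβ : ∀ i, p i ≠ 0 → 0 ≤ β ⬝ᵥ w i)
    (φ : Fin N → k[X]) (hφ : ∀ i, (φ i).natDegree ≤ (β ⬝ᵥ w i).toNat)
    (hφp : ∀ i, (φ i).coeff (β ⬝ᵥ w i).toNat = p i)
    (hφF : ∀ j, MvPolynomial.aeval φ (F j) = 0) (i₀ : Fin N) (hi₀ : 0 < β ⬝ᵥ w i₀)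
    (hp₀ : p i₀ ≠ 0) (h₀ : (φ i₀).coeff 0 = 0)
    (hne : ∃ i, φ i ≠ C (p i) * X ^ (β ⬝ᵥ w i).toNat) :
    IsCurveClass w κ F β ∨ ∃ γ : Fin r → ℤ, γ ≠ 0 ∧ γ ≠ β ∧
      (∃ x, IsPoint w κ F x ∧ ∀ i, x i ≠ 0 → 0 ≤ γ ⬝ᵥ w i) ∧
      ∀ i, p i ≠ 0 → 0 ≤ (β - γ) ⬝ᵥ w i := by
  have hneg : ∀ i, β ⬝ᵥ w i < 0 → φ i = 0 := by
    intro i hi
    have h1 : (β ⬝ᵥ w i).toNat = 0 := by omega
    have h2 : p i = 0 := by
      by_contra h
      have := hβ i h
      omega
    have h3 := hφ i
    rw [h1] at h3
    rw [eq_C_of_natDegree_le_zero h3]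
    have h4 := hφp i
    rw [h1, h2] at h4
    rw [h4, C_0]
  by_cases hall : ∀ u : k, Semistable w κ (fun i => (φ i).eval u)
  · left
    refine ⟨fun i => hom (β ⬝ᵥ w i).toNat (φ i), fun i hi => ?_, fun j => ?_, fun u hu => ?_⟩
    · have h1 : 0 ≤ β ⬝ᵥ w i := by
        by_contra h
        push Not at h
        apply hi
        beta_reduce
        rw [hneg i h, hom_zero]
      exact ⟨(β ⬝ᵥ w i).toNat, Int.toNat_of_nonneg h1, hom_homogeneous _ _⟩
    · rw [← aeval_red (fun i => β ⬝ᵥ w i) (F j) _ (fun i hi => by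
        rw [hneg i hi, hom_zero])]
      refine aeval_hom _ _ _ (red_homogeneous (hF j) β) φ hφ ?_
      rw [aeval_red _ _ _ hneg]
      exact hφF j
    · by_cases h : u 1 = 0
      · have h0 : u 0 ≠ 0 := by
          intro h0
          apply hu
          funext j
          fin_cases j
          · exact h0
          · exact h
        refine hp.2.mono fun i hi => ?_
        beta_reduce
        rw [eval_hom_zero _ _ _ h, hφp]
        exact mul_ne_zero (pow_ne_zero _ h0) hi
      · refine (hall (u 0 / u 1)).mono fun i hi => ?_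
        beta_reduce
        rw [eval_hom _ _ (hφ i) _ h]
        exact mul_ne_zero (pow_ne_zero _ h) hi
  · right
    push Not at hall
    obtain ⟨u, hu⟩ := hall
    set g : Fin N → k[X] := fun i => (φ i).comp (X + C u) with hg
    have hback : ∀ i, (g i).comp (X - C u) = φ i := by
      intro i
      rw [hg]
      beta_reduce
      rw [comp_assoc, add_comp, X_comp, C_comp, sub_add_cancel, comp_X]
    have hgdeg : ∀ i, (g i).natDegree ≤ (β ⬝ᵥ w i).toNat := by
      intro i
      refine (natDegree_comp_le).trans ?_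
      rw [natDegree_X_add_C, mul_one]
      exact hφ i
    obtain ⟨γ, hγ0, hγ1, hγ2⟩ := base hF hproj hfree hp g (fun j => by
        rw [hg, aeval_comp' (F j) φ (X + C u), hφF j, zero_comp])
      (fun i hi h => by
        apply hi
        rw [← hφp i, ← hback i, h, zero_comp, coeff_zero])
      (fun h => by
        apply hu
        refine h.mono fun i hi => ?_
        rw [hg] at hi
        beta_reduce at hi
        rw [eval_comp, eval_add, eval_X, eval_C, zero_add] at hi
        exact hi)
    have htr : ∀ i, g i ≠ 0 → γ ⬝ᵥ w i ≤ (β ⬝ᵥ w i).toNat := by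
      intro i hi
      refine (hγ1 i hi).trans ?_
      exact_mod_cast (natTrailingDegree_le_natDegree (g i)).trans (hgdeg i)
    refine ⟨γ, hγ0, ?_, hγ2, ?_⟩
    · rintro rfl
      have hφi : ∀ i, φ i = C (p i) * (X - C u) ^ (γ ⬝ᵥ w i).toNat := by
        intro i
        by_cases hgi : g i = 0
        · have h1 : φ i = 0 := by rw [← hback i, hgi, zero_comp]
          have h2 : p i = 0 := by rw [← hφp i, h1, coeff_zero]
          rw [h1, h2, C_0, zero_mul]
        · have h1 : 0 ≤ γ ⬝ᵥ w i := by
            by_contra h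
            push Not at h
            apply hgi
            rw [hg]
            beta_reduce
            rw [hneg i h, zero_comp]
          have h2 := hγ1 i hgi
          have h3 := Int.toNat_of_nonneg h1
          have h4 : (γ ⬝ᵥ w i).toNat ≤ (g i).natTrailingDegree := by omega
          have h5 : g i = C ((g i).coeff (γ ⬝ᵥ w i).toNat) * X ^ (γ ⬝ᵥ w i).toNat := by
            ext n
            rw [coeff_C_mul_X_pow]
            split_ifs with h
            · rw [h]
            · rcases lt_or_gt_of_ne h with h6 | h6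
              · exact coeff_eq_zero_of_lt_natTrailingDegree (lt_of_lt_of_le h6 h4)
              · exact coeff_eq_zero_of_natDegree_lt (lt_of_le_of_lt (hgdeg i) h6)
          set e := (g i).coeff (γ ⬝ᵥ w i).toNat with he
          have h6 : φ i = C e * (X - C u) ^ (γ ⬝ᵥ w i).toNat := by
            rw [← hback i, h5, mul_comp, C_comp, X_pow_comp]
          have h7 : e = p i := by
            rw [← hφp i, h6, coeff_C_mul, coeff_sub_pow, Nat.sub_self, pow_zero, one_mul,
              Nat.choose_self, Nat.cast_one, mul_one]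
          rw [h6, h7]
      have hu0 : u = 0 := by
        have h1 := h₀
        rw [hφi i₀, coeff_C_mul, coeff_sub_pow, Nat.sub_zero, Nat.choose_zero_right, Nat.cast_one,
          mul_one] at h1
        rcases mul_eq_zero.1 h1 with h2 | h2
        · exact absurd h2 hp₀
        · have h3 : (-u) = 0 := by
            by_contra h4
            exact pow_ne_zero _ h4 h2
          exact neg_eq_zero.1 h3
      obtain ⟨i, hi⟩ := hne
      apply hi
      rw [hφi i, hu0, C_0, sub_zero]
    · intro i hi
      have h1 : g i ≠ 0 := by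
        intro h
        apply hi
        rw [← hφp i, ← hback i, h, zero_comp, coeff_zero]
      have h2 := htr i h1
      rw [Int.toNat_of_nonneg (hβ i hi)] at h2
      rw [sub_dotProduct]
      omega

end Pool.Agent.H.MP_2786f0_ag.h70
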